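import Pool.Agent.Lib.MP_bdb4fe_an.Defs

/-!
Module CMP. Composition of the errors, and the maps `g` of a run.
-/

set_option autoImplicit false
set_option linter.unusedVariables false

namespace Pool.Agent.Lib.MP_bdb4fe_an

open Filter Topology Metric Set

theorem comp_err (f g : ℕ → (E ≃ E)) (η : ℕ → ℝ) (h0 : ∀ n, 0 ≤ η n)
    (hs : ∀ n, ∑ i ∈ Finset.range n, η i ≤ 1 / 4)
    (h1 : ∀ (n : ℕ) (x : E), ‖x‖ ≤ 5 / 4 →
      ‖(up g n).symm ((f n).symm (g n (up g n x))) - x‖ ≤ η n)
    (h2 : ∀ (n : ℕ) (x : E), ‖x‖ ≤ 5 / 4 →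
      ‖(up g n).symm ((g n).symm (f n (up g n x))) - x‖ ≤ η n) (n : ℕ) (x : E) (hx : ‖x‖ ≤ 1) :
    ‖(up f n).symm (up g n x) - x‖ ≤ ∑ i ∈ Finset.range n, η i ∧
      ‖(up g n).symm (up f n x) - x‖ ≤ ∑ i ∈ Finset.range n, η i := by
  have hsn : ∀ n, 0 ≤ ∑ i ∈ Finset.range n, η i := fun n => Finset.sum_nonneg (fun i _ => h0 i)
  constructor
  · have key : ∀ (n : ℕ) (x : E), ‖x‖ ≤ 5 / 4 - ∑ i ∈ Finset.range n, η i →
        ‖(up f n).symm (up g n x) - x‖ ≤ ∑ i ∈ Finset.range n, η i := by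
      intro n
      induction n with
      | zero => intro x _; simp [up]
      | succ n ih =>
        intro x hx
        rw [Finset.sum_range_succ] at hx ⊢
        have hη := h0 n
        have hx1 : ‖x‖ ≤ 5 / 4 := by
          have := hsn n
          linarith
        have hτ := h1 n x hx1
        set τ : E := (up g n).symm ((f n).symm (g n (up g n x))) with hτdef
        have e1 : (up f (n + 1)).symm (up g (n + 1) x) = (up f n).symm (up g n τ) := by
          rw [hτdef, Equiv.apply_symm_apply]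
          rfl
        have hτn : ‖τ‖ ≤ 5 / 4 - ∑ i ∈ Finset.range n, η i := by
          have : ‖τ‖ ≤ ‖τ - x‖ + ‖x‖ := by
            have := norm_add_le (τ - x) x
            simpa using this
          linarith
        rw [e1]
        have h3 := ih τ hτn
        have h4 : (up f n).symm (up g n τ) - x = ((up f n).symm (up g n τ) - τ) + (τ - x) := by
          abel
        rw [h4]
        exact (norm_add_le _ _).trans (add_le_add h3 hτ)
    refine key n x ?_
    have := hs n
    linarith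
  · have key : ∀ (n : ℕ), ‖(up g n).symm (up f n x) - x‖ ≤ ∑ i ∈ Finset.range n, η i := by
      intro n
      induction n with
      | zero => simp [up]
      | succ n ih =>
        rw [Finset.sum_range_succ]
        set z : E := (up g n).symm (up f n x) with hz
        have hzn : ‖z‖ ≤ 5 / 4 := by
          have : ‖z‖ ≤ ‖z - x‖ + ‖x‖ := by
            have := norm_add_le (z - x) x
            simpa using this
          have := hs n
          linarith
        have e0 : up g n z = up f n x := by rw [hz, Equiv.apply_symm_apply]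
        have e1 : (up g (n + 1)).symm (up f (n + 1) x) =
            (up g n).symm ((g n).symm (f n (up g n z))) := by
          rw [e0]
          rfl
        rw [e1]
        have h4 : (up g n).symm ((g n).symm (f n (up g n z))) - x =
          (z - x) + ((up g n).symm ((g n).symm (f n (up g n z))) - z) := by abel
        rw [h4]
        exact (norm_add_le _ _).trans (add_le_add ih (h2 n z hzn))
    exact key n

theorem maj_up (α β c : ℝ) (hα : 0 ≤ α) (hβ : 0 ≤ β) (hc : 0 ≤ c) (F U V : ℕ → Bool)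
    (g : ℕ → (E ≃ E)) (A B p q : ℕ → ℂ) (hg : ∀ n x, g n x = qmap (A n) (B n) (p n) (q n) x)
    (hA : ∀ n, ‖A n‖ = if F n then α else β) (hB : ∀ n, ‖B n‖ = if F n then β else α)
    (hp : ∀ n, ‖p n‖ ≤ if U n then c else 0) (hq : ∀ n, ‖q n‖ ≤ if V n then c else 0)
    (R : ℝ) (hR : 0 ≤ R) (n : ℕ) (x : E) (hx : ‖x‖ ≤ R) :
    ‖(up g n x).1‖ ≤ (maj α β c F U V R n).1 ∧ ‖(up g n x).2‖ ≤ (maj α β c F U V R n).2 := by
  induction n with
  | zero => exact ⟨(norm_fst_le x).trans hx, (norm_snd_le x).trans hx⟩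
  | succ n ih =>
    obtain ⟨i1, i2⟩ := ih
    have e : up g (n + 1) x = qmap (A n) (B n) (p n) (q n) (up g n x) := by
      rw [← hg]; rfl
    rw [e]
    have hU : ∀ (b : Bool) (w : ℂ) (Y : ℝ), ‖w‖ ≤ Y → ∀ t : ℂ, ‖t‖ ≤ (if b then c else 0) →
        ‖t * w ^ 2‖ ≤ (if b then c * Y ^ 2 else 0) := by
      intro b w Y hw t ht
      rw [norm_mul, norm_pow]
      have h2 : ‖w‖ ^ 2 ≤ Y ^ 2 := pow_le_pow_left₀ (norm_nonneg _) hw 2
      have h3 : (if b then c * Y ^ 2 else 0) = (if b then c else 0) * Y ^ 2 := by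
        cases b <;> simp
      rw [h3]
      refine mul_le_mul ht h2 (by positivity) ?_
      cases b <;> simp [hc]
    constructor
    · show ‖A n * (up g n x).1 + p n * (up g n x).2 ^ 2‖ ≤
        (if F n then α else β) * (maj α β c F U V R n).1 +
        (if U n then c * (maj α β c F U V R n).2 ^ 2 else 0)
      refine (norm_add_le _ _).trans (add_le_add ?_ (hU _ _ _ i2 _ (hp n)))
      rw [norm_mul, hA]
      refine mul_le_mul_of_nonneg_left i1 ?_
      split_ifs <;> assumption
    · show ‖B n * (up g n x).2 + q n * (up g n x).1 ^ 2‖ ≤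
        (if F n then β else α) * (maj α β c F U V R n).2 +
        (if V n then c * (maj α β c F U V R n).1 ^ 2 else 0)
      refine (norm_add_le _ _).trans (add_le_add ?_ (hU _ _ _ i1 _ (hq n)))
      rw [norm_mul, hB]
      refine mul_le_mul_of_nonneg_left i2 ?_
      split_ifs <;> assumption

theorem cmp_qinv (A B p q p' q' : ℂ) (hA : A ≠ 0) (hB : B ≠ 0)
    (h : (p = 0 ∧ p' = 0) ∨ (q = 0 ∧ q' = 0)) (x : E) :
    qinv A B p q (qmap A B p' q' x) =
      (x.1 + (p' - p) / A * x.2 ^ 2, x.2 + (q' - q) / B * x.1 ^ 2) := by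
  rcases h with ⟨h, h'⟩ | ⟨h, h'⟩ <;> subst h <;> subst h' <;> ext <;> simp [qinv, qmap] <;>
    field_simp <;> ring

/-- `f⁻¹ g` for two quadratic maps with the same linear part and `(p', q') ∈ {(p, q), (0, 0)}` -/
theorem dev (A B p q p' q' : ℂ) (hA : A ≠ 0) (hB : B ≠ 0) (h : p = 0 ∨ q = 0)
    (h' : p' = 0 ∨ q' = 0) (hp : p' = p ∨ p' = 0) (hq : q' = q ∨ q' = 0) (x : E) :
    (qeq A B p q hA hB h).symm (qeq A B p' q' hA hB h' x) =
      (x.1 + (p' - p) / A * x.2 ^ 2, x.2 + (q' - q) / B * x.1 ^ 2) := by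
  have h3 : (p = 0 ∧ p' = 0) ∨ (q = 0 ∧ q' = 0) := by
    rcases h with h | h
    · left; refine ⟨h, ?_⟩
      rcases hp with h5 | h5
      · rw [h5, h]
      · exact h5
    · right; refine ⟨h, ?_⟩
      rcases hq with h5 | h5
      · rw [h5, h]
      · exact h5
  exact cmp_qinv A B p q p' q' hA hB h3 x

/-- `g⁻¹ f` -/
theorem dev' (A B p q p' q' : ℂ) (hA : A ≠ 0) (hB : B ≠ 0) (h : p = 0 ∨ q = 0)
    (h' : p' = 0 ∨ q' = 0) (hp : p' = p ∨ p' = 0) (hq : q' = q ∨ q' = 0) (x : E) :
    (qeq A B p' q' hA hB h').symm (qeq A B p q hA hB h x) =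
      (x.1 + (p - p') / A * x.2 ^ 2, x.2 + (q - q') / B * x.1 ^ 2) := by
  have h3 : (p' = 0 ∧ p = 0) ∨ (q' = 0 ∧ q = 0) := by
    rcases h with h | h
    · left; refine ⟨?_, h⟩
      rcases hp with h5 | h5
      · rw [h5, h]
      · exact h5
    · right; refine ⟨?_, h⟩
      rcases hq with h5 | h5
      · rw [h5, h]
      · exact h5
  exact cmp_qinv A B p' q' p q hA hB h3 x

end Pool.Agent.Lib.MP_bdb4fe_an
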