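import Pool.Agent.Lib.MP_bdb4fe_an.Defs

/-!
Module COR. The linear programming core (pure real arithmetic, everything in units of
`log (1/α)`): `k = log β / log α`, `η = (7 - 2k)/10`, `m = k - 2 + η = (8k - 13)/10`.

Meaning: `T < T'` times, `X` the exponent of the first coordinate at time `T`, `τ` the start of the
lineage of the second coordinate, `φ` the number of F-steps in `[τ, T)`, `a` the start of the lineage
of the first coordinate, `f` the number of F-steps in `[a, T)`, `r` the logarithmic error.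

PROOF of `core_weak` (conclusion `(8/5) T ≤ T' + 40 r`... with ANY constant `40` replaced by what
comes out, see below). From hE: either
`X ≥ φ + k (T - τ - φ) + τ - r = kT - (k-1)(φ+τ) - r` and, by h1 (`3τ ≤ mT + r`, `3((k-1)φ+τ) ≤ mT + r`),
`(k-1)(φ+τ) = ((k-1)φ+τ) + (k-2)τ ≤ (k-1)(mT+r)/3`, so `X ≥ kT - (k-1)(mT+r)/3 - r`;
or `X ≥ 2a + f + k(T-a-f) - r = kT - (k-2)a - (k-1)f - r`; with `f ≤ T - a`, `k ≥ 2`:
`≥ 2T - f - r ≥ 2T - φ - r` and `3(k-1)φ ≤ mT + r`; or, in `core_strong`, with `a ≤ (2/3) T` and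
`(k-1) f ≤ (k-1)φ ≤ (mT+r)/3`: `≥ kT - (2/3)(k-2)T - (mT+r)/3 - r = (2 - η/3) T - (4/3) r`.
From h3 either `3(T'+T) - r ≤ (1+k+η)T'`, i.e. `m T' ≥ 3T - r` with `m ≤ 3/2 - ...`
(`3 - 2m = 8η`), or `3(X + T' - T) - r ≤ (1+k+η) T'`, i.e. `m T' ≥ 3(X - T) - r`.
Insert the bounds on `X`:
weak: `m T' ≥ 3T - (mT + r)/(k-1) - 4r` resp. `m T' ≥ (k-1)(3-m) T - (k-1) r - 4r`, and
`3(k-1) - m - (8/5) m (k-1) ≥ 0` on `[2, 7/2]` (zero at `7/2`) resp. `(k-1)(3-m) ≥ (8/5) m`;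
strong: `m T' ≥ (3 - η) T - 5r`, `3 - η - 2m = 7η`, resp. `(k-1)(3-m) - 2m ≥ ... ≥ η`
(concave in `k` after inserting `η`; check at `k = 2` and `k = 7/2`).
Divide by `m ≥ 3/10`, `m ≤ 3/2`. The constants `100` and `4η` in the statements are generous
(`7η/m ≥ 7η/(3/2) ≥ 4η`).
-/

set_option autoImplicit false

namespace Pool.Agent.Lib.MP_bdb4fe_an

/-- from the bound of the exponent to the bound of the time -/
theorem cor_T {k η m T T' X r B : ℝ} (hm : m = (8 * k - 13) / 10) (hη : η = (7 - 2 * k) / 10)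
    (hX : B ≤ X)
    (h3 : 3 * (X + T' - T) - r ≤ (1 + k + η) * T') :
    3 * B - 3 * T - r ≤ m * T' := by
  subst hm hη
  linarith

theorem cor_T2 {k η m T T' r : ℝ} (hm : m = (8 * k - 13) / 10) (hη : η = (7 - 2 * k) / 10)
    (h3 : 3 * (T' + T) - r ≤ (1 + k + η) * T') : 3 * T - r ≤ m * T' := by
  subst hm hη
  linarith

/-- first case of the exponent -/
theorem cor_E1 {k m T τ φ r : ℝ} (hk2 : 2 ≤ k) (hτ : 0 ≤ τ) (hφ : 0 ≤ φ)
    (h1 : 3 * ((k - 1) * φ + τ) ≤ m * T + r) :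
    k * T - (k - 1) * (m * T + r) / 3 - r ≤ φ + k * (T - τ - φ) + τ - r := by
  have h2 : 3 * τ ≤ m * T + r := by nlinarith
  have h3 : (k - 2) * (3 * τ) ≤ (k - 2) * (m * T + r) :=
    mul_le_mul_of_nonneg_left h2 (by linarith)
  nlinarith

/-- final step of the division by `m` -/
theorem cor_div {m g T T' r b : ℝ} (hm : 3 / 10 ≤ m) (hr : 0 ≤ r) (hb : b ≤ 30)
    (h : m * g * T - b * r ≤ m * T') : g * T ≤ T' + 100 * r := by
  have hm0 : 0 < m := by linarith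
  have h1 : b * r ≤ 30 * r := mul_le_mul_of_nonneg_right hb hr
  have h2 : 30 * r ≤ m * (100 * r) := by nlinarith
  have h3 : m * (g * T) ≤ m * (T' + 100 * r) := by nlinarith
  exact le_of_mul_le_mul_left h3 hm0

theorem core_weak (k η T T' X τ φ a f r : ℝ) (hk2 : 2 ≤ k) (hk7 : 2 * k < 7)
    (hη : η = (7 - 2 * k) / 10) (hT : 0 ≤ T) (hTT : T ≤ T') (hτ : 0 ≤ τ) (hφ : 0 ≤ φ) (hr : 0 ≤ r)
    (h1 : 3 * ((k - 1) * φ + τ) ≤ (k - 2 + η) * T + r)
    (hE : φ + k * (T - τ - φ) + τ - r ≤ X ∨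
      (0 ≤ a ∧ a ≤ T ∧ 0 ≤ f ∧ f ≤ φ ∧ f ≤ T - a ∧ 2 * a + f + k * (T - a - f) - r ≤ X))
    (h3 : 3 * (X + T' - T) - r ≤ (1 + k + η) * T' ∨ 3 * (T' + T) - r ≤ (1 + k + η) * T') :
    8 / 5 * T ≤ T' + 100 * r := by
  obtain ⟨m, hm⟩ : ∃ m : ℝ, m = (8 * k - 13) / 10 := ⟨_, rfl⟩
  have hm1 : k - 2 + η = m := by rw [hm, hη]; ring
  have hm2 : 3 / 10 ≤ m := by rw [hm]; linarith
  have hm3 : m ≤ 3 / 2 := by rw [hm]; linarith
  rw [hm1] at h1
  rcases h3 with h3 | h3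
  · rcases hE with hE | ⟨ha0, haT, hf0, hfφ, hfT, hE⟩
    · have h4 := cor_T hm hη ((cor_E1 hk2 hτ hφ h1).trans hE) h3
      refine cor_div (b := 13 / 2) hm2 hr (by norm_num) ?_
      have h5 : m * (8 / 5) ≤ (k - 1) * (3 - m) := by rw [hm]; nlinarith
      have h6 : m * (8 / 5) * T ≤ (k - 1) * (3 - m) * T := mul_le_mul_of_nonneg_right h5 hT
      have h7 : (k - 1) * r ≤ 5 / 2 * r := mul_le_mul_of_nonneg_right (by linarith) hr
      nlinarith
    · have h5 : 2 * T - φ - r ≤ X := by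
        have : 0 ≤ (k - 2) * (T - a - f) := mul_nonneg (by linarith) (by linarith)
        nlinarith
      have h4 := cor_T hm hη h5 h3
      have h6 : 3 * ((k - 1) * φ) ≤ m * T + r := by linarith
      have hk1 : 0 < k - 1 := by linarith
      have h7 : (k - 1) * (3 * T - 3 * φ - 4 * r) ≤ (k - 1) * (m * T') :=
        mul_le_mul_of_nonneg_left (by linarith) hk1.le
      have h8 : (8 / 5) * m * (k - 1) ≤ 3 * (k - 1) - m := by rw [hm]; nlinarith
      have h9 : (8 / 5) * m * (k - 1) * T ≤ (3 * (k - 1) - m) * T :=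
        mul_le_mul_of_nonneg_right h8 hT
      have h10 : r ≤ (k - 1) * r := by nlinarith
      refine cor_div (b := 5) hm2 hr (by norm_num) ?_
      have h11 : (k - 1) * (m * (8 / 5) * T - 5 * r) ≤ (k - 1) * (m * T') := by nlinarith
      exact le_of_mul_le_mul_left h11 hk1
  · have h4 := cor_T2 hm hη h3
    refine cor_div (b := 1) hm2 hr (by norm_num) ?_
    have h5 : m * (8 / 5) * T ≤ 3 * T := mul_le_mul_of_nonneg_right (by linarith) hT
    linarith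

theorem core_strong (k η T T' X τ φ a f r : ℝ) (hk2 : 2 ≤ k) (hk7 : 2 * k < 7)
    (hη : η = (7 - 2 * k) / 10) (hT : 0 ≤ T) (hTT : T ≤ T') (hτ : 0 ≤ τ) (hφ : 0 ≤ φ) (hr : 0 ≤ r)
    (h1 : 3 * ((k - 1) * φ + τ) ≤ (k - 2 + η) * T + r)
    (hE : φ + k * (T - τ - φ) + τ - r ≤ X ∨
      (0 ≤ a ∧ 3 * a ≤ 2 * T ∧ 0 ≤ f ∧ f ≤ φ ∧ f ≤ T - a ∧ 2 * a + f + k * (T - a - f) - r ≤ X))
    (h3 : 3 * (X + T' - T) - r ≤ (1 + k + η) * T' ∨ 3 * (T' + T) - r ≤ (1 + k + η) * T') :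
    (2 + η) * T ≤ T' + 100 * r := by
  obtain ⟨m, hm⟩ : ∃ m : ℝ, m = (8 * k - 13) / 10 := ⟨_, rfl⟩
  have hm1 : k - 2 + η = m := by rw [hm, hη]; ring
  have hm2 : 3 / 10 ≤ m := by rw [hm]; linarith
  have hm3 : m ≤ 3 / 2 := by rw [hm]; linarith
  have hη0 : 0 < η := by rw [hη]; linarith
  have h38 : 3 - 2 * m = 8 * η := by rw [hm, hη]; ring
  have hmη : m * η ≤ 3 / 2 * η := mul_le_mul_of_nonneg_right hm3 hη0.le
  rw [hm1] at h1
  rcases h3 with h3 | h3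
  · rcases hE with hE | ⟨ha0, haT, hf0, hfφ, hfT, hE⟩
    · have h4 := cor_T hm hη ((cor_E1 hk2 hτ hφ h1).trans hE) h3
      refine cor_div (b := 13 / 2) hm2 hr (by norm_num) ?_
      have h5 : m * (2 + η) ≤ (k - 1) * (3 - m) := by rw [hm, hη]; nlinarith
      have h6 : m * (2 + η) * T ≤ (k - 1) * (3 - m) * T := mul_le_mul_of_nonneg_right h5 hT
      have h7 : (k - 1) * r ≤ 5 / 2 * r := mul_le_mul_of_nonneg_right (by linarith) hr
      nlinarith
    · have h6 : 3 * ((k - 1) * φ) ≤ m * T + r := by linarith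
      have h7 : (k - 1) * f ≤ (k - 1) * φ := mul_le_mul_of_nonneg_left hfφ (by linarith)
      have h8 : (k - 2) * (3 * a) ≤ (k - 2) * (2 * T) :=
        mul_le_mul_of_nonneg_left haT (by linarith)
      have h5 : k * T - (k - 2) * (2 * T) / 3 - (m * T + r) / 3 - r ≤ X := by nlinarith
      have h4 := cor_T hm hη h5 h3
      refine cor_div (b := 5) hm2 hr (by norm_num) ?_
      have h9 : m * (2 + η) ≤ 3 - η := by nlinarith
      have h10 : m * (2 + η) * T ≤ (3 - η) * T := mul_le_mul_of_nonneg_right h9 hT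
      have h11 : (k + 1 - m) = 3 - η := by rw [hm, hη]; ring
      have h12 : (k + 1 - m) * T = (3 - η) * T := by rw [h11]
      nlinarith
  · have h4 := cor_T2 hm hη h3
    refine cor_div (b := 1) hm2 hr (by norm_num) ?_
    have h9 : m * (2 + η) ≤ 3 := by nlinarith
    have h5 : m * (2 + η) * T ≤ 3 * T := mul_le_mul_of_nonneg_right h9 hT
    linarith

end Pool.Agent.Lib.MP_bdb4fe_an
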