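import Pool.Agent.Lib.MP_bdb4fe_an.Defs

/-!
Module DEG. If the keeps of the two kinds are well spaced, the degrees grow at most linearly.

PROOF. Define by recursion along `n` the data (kind, last doubling time, previous doubling time) or,
simpler, prove by induction on `n` the statement: there are `N l p : ℕ` such that
`max (dg n).1 (dg n).2 ≤ 2 ^ N`, and one of
 (0) `dg n = (1, 1)`, `N = 0` and `U j = V j = false` for all `j < n`;
 (A) kind U: `(dg n).1 ≤ 2^N`, `2 * (dg n).2 ≤ 2^N`, `(dg n).1 = 2 * (dg n).2`, `l < n`,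
     `U l = true`, `V j = false` for `l ≤ j < n`, and there is `s ≤ l` with `s = 0 ∨ V s` and
     `U j = false` for `s ≤ j < l`;
 (B) kind V: the same with the roles exchanged;
and in both cases `2 ^ N ≤ C * (l + 1)` with a constant `C`, e.g. `C = 2 ^ (T1 + 2)`.
Step. In state (0): a `U` at `n` gives state (A) with `l = n`, `s = 0`, `dg = (2, 1)`, `N = 1`,
`2 ≤ C`; similarly `V`. In state (A) a `U` at `n` changes nothing (`max (2q) (2q) = 2q`), no keep
changes nothing (only `n` grows), a `V` at `n` gives `dg = (2q, 4q)`, i.e. state (B) with `N + 1`,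
`l' = n`, `s' = l` (`V j = false` for `l ≤ j < n` and `U l`), and the new bound: if `T1 ≤ l` then
`2 * l ≤ n` by the spacing hypothesis for `(s, l, n)`, so
`2^(N+1) ≤ 2 * C * (l+1) ≤ ...` -- to make the arithmetic work carry the bound in the form
`2 ^ N ≤ C * l` for `l ≥ T1` (with `T1 ≥ 1` w.l.o.g., replace `T1` by `max T1 1`), and for `l < T1` carry
`N ≤ l + 1` (each doubling time is larger than the one before), so `2 ^ N ≤ 2 ^ (T1 + 1)`; passing from
`l < T1` to `n`: `2^(N+1) ≤ 2^(T1+2) ≤ C * (n)` with `n ≥ 1`. State (B): the same with the mirrored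
hypothesis. At the end `2 ^ N ≤ C * (l + 1) ≤ C * (n + 1)`.
(It may be convenient to define `kind`, `l`, `N` by a recursion instead of the existential.)
-/

set_option autoImplicit false

namespace Pool.Agent.Lib.MP_bdb4fe_an

open Filter Topology Metric Set

/-- the state after a doubling of the first degree: degrees `2^(M+1)`, `2^M`, last doubling time
`l`, and `s` the doubling time before it (or `0`) -/
def deg_A (U V : ℕ → Bool) (T n P Q : ℕ) : Prop :=
  ∃ M l s : ℕ, P = 2 ^ (M + 1) ∧ Q = 2 ^ M ∧ l < n ∧ U l = true ∧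
    (∀ j, l ≤ j → j < n → V j = false) ∧ s ≤ l ∧ (s = 0 ∨ V s = true) ∧
    (∀ j, s ≤ j → j < l → U j = false) ∧ M ≤ l ∧ (T ≤ l → 2 ^ (M + 1) ≤ 2 ^ (T + 1) * l)

theorem deg_step (U V : ℕ → Bool) (hUV : ∀ n, U n = true → V n = true → False) (T : ℕ)
    (hT : 1 ≤ T)
    (h1 : ∀ s1 s2 s3 : ℕ, T ≤ s2 → s1 ≤ s2 → s2 < s3 → (s1 = 0 ∨ V s1 = true) →
      (∀ n, s1 ≤ n → n < s2 → U n = false) → U s2 = true → V s3 = true → 2 * s2 ≤ s3)
    {n P Q : ℕ} (h : deg_A U V T n P Q) :
    deg_A U V T (n + 1) (if U n then max P (2 * Q) else P) (if V n then max Q (2 * P) else Q) ∨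
    deg_A V U T (n + 1) (if V n then max Q (2 * P) else Q)
      (if U n then max P (2 * Q) else P) := by
  obtain ⟨M, l, s, rfl, rfl, hl, hUl, hV, hsl, hs, hU, hM, hb⟩ := h
  cases hVn : V n with
  | false =>
    left
    refine ⟨M, l, s, ?_, ?_, by omega, hUl, ?_, hsl, hs, hU, hM, hb⟩
    · cases U n
      · simp
      · simp only [if_true]
        rw [max_eq_left]
        rw [pow_succ]; omega
    · simp
    · intro j h2 h3
      rcases Nat.lt_or_ge j n with h4 | h4
      · exact hV j h2 h4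
      · obtain rfl : j = n := by omega
        exact hVn
  | true =>
    right
    have hUn : U n = false := by
      cases hUn : U n
      · rfl
      · exact (hUV n hUn hVn).elim
    refine ⟨M + 1, n, l, ?_, ?_, by omega, hVn, ?_, hl.le, Or.inr hUl, hV, by omega, ?_⟩
    · simp only [if_true]
      rw [max_eq_right]
      · ring
      · have : 0 < 2 ^ M := by positivity
        rw [pow_succ]; omega
    · simp [hUn]
    · intro j h2 h3
      obtain rfl : j = n := by omega
      exact hUn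
    · intro hTn
      rcases Nat.lt_or_ge l T with h2 | h2
      · calc 2 ^ (M + 1 + 1) ≤ 2 ^ (T + 1) := Nat.pow_le_pow_right (by norm_num) (by omega)
          _ = 2 ^ (T + 1) * 1 := (Nat.mul_one _).symm
          _ ≤ 2 ^ (T + 1) * n := Nat.mul_le_mul_left _ (by omega)
      · have h3 := h1 s l n h2 hsl hl hs hU hUl hVn
        calc 2 ^ (M + 1 + 1) = 2 * 2 ^ (M + 1) := by ring
          _ ≤ 2 * (2 ^ (T + 1) * l) := Nat.mul_le_mul_left _ (hb h2)
          _ = 2 ^ (T + 1) * (2 * l) := by ring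
          _ ≤ 2 ^ (T + 1) * n := Nat.mul_le_mul_left _ h3

theorem deg_start (U V : ℕ → Bool) (T : ℕ) (hT : 1 ≤ T) {n : ℕ} (hU : ∀ j < n, U j = false)
    (hUn : U n = true) (hVn : V n = false) : deg_A U V T (n + 1) 2 1 := by
  refine ⟨0, n, 0, by norm_num, by norm_num, by omega, hUn, ?_, by omega, Or.inl rfl,
    fun j _ h => hU j h, by omega, ?_⟩
  · intro j h2 h3
    obtain rfl : j = n := by omega
    exact hVn
  · intro hTn
    calc 2 ^ (0 + 1) ≤ 2 ^ (T + 1) := Nat.pow_le_pow_right (by norm_num) (by omega)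
      _ = 2 ^ (T + 1) * 1 := (Nat.mul_one _).symm
      _ ≤ 2 ^ (T + 1) * n := Nat.mul_le_mul_left _ (by omega)

theorem deg_bound {U V : ℕ → Bool} {T n P Q : ℕ} (h : deg_A U V T n P Q) :
    P ≤ 2 ^ (T + 1) * (n + 1) ∧ Q ≤ 2 ^ (T + 1) * (n + 1) := by
  obtain ⟨M, l, s, rfl, rfl, hl, -, -, -, -, -, hM, hb⟩ := h
  have h1 : 2 ^ (M + 1) ≤ 2 ^ (T + 1) * (n + 1) := by
    rcases Nat.lt_or_ge l T with h2 | h2
    · calc 2 ^ (M + 1) ≤ 2 ^ (T + 1) := Nat.pow_le_pow_right (by norm_num) (by omega)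
        _ = 2 ^ (T + 1) * 1 := (Nat.mul_one _).symm
        _ ≤ 2 ^ (T + 1) * (n + 1) := Nat.mul_le_mul_left _ (by omega)
    · exact (hb h2).trans (Nat.mul_le_mul_left _ (by omega))
  refine ⟨h1, le_trans ?_ h1⟩
  exact Nat.pow_le_pow_right (by norm_num) (by omega)

theorem deg_inv (U V : ℕ → Bool) (hUV : ∀ n, U n = true → V n = true → False) (T : ℕ)
    (hT : 1 ≤ T)
    (h1 : ∀ s1 s2 s3 : ℕ, T ≤ s2 → s1 ≤ s2 → s2 < s3 → (s1 = 0 ∨ V s1 = true) →
      (∀ n, s1 ≤ n → n < s2 → U n = false) → U s2 = true → V s3 = true → 2 * s2 ≤ s3)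
    (h2 : ∀ s1 s2 s3 : ℕ, T ≤ s2 → s1 ≤ s2 → s2 < s3 → (s1 = 0 ∨ U s1 = true) →
      (∀ n, s1 ≤ n → n < s2 → V n = false) → V s2 = true → U s3 = true → 2 * s2 ≤ s3) (n : ℕ) :
    (dg U V n = (1, 1) ∧ ∀ j < n, U j = false ∧ V j = false) ∨
    deg_A U V T n (dg U V n).1 (dg U V n).2 ∨ deg_A V U T n (dg U V n).2 (dg U V n).1 := by
  induction n with
  | zero => exact Or.inl ⟨rfl, fun j hj => by omega⟩
  | succ n ih =>
    rcases ih with ⟨h3, h4⟩ | h3 | h3
    · cases hUn : U n with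
      | true =>
        have hVn : V n = false := by
          cases hVn : V n
          · rfl
          · exact (hUV n hUn hVn).elim
        right; left
        have e : dg U V (n + 1) = (2, 1) := by simp [dg, hUn, hVn, h3]
        rw [e]
        exact deg_start U V T hT (fun j hj => (h4 j hj).1) hUn hVn
      | false =>
        cases hVn : V n with
        | true =>
          right; right
          have e : dg U V (n + 1) = (1, 2) := by simp [dg, hUn, hVn, h3]
          rw [e]
          exact deg_start V U T hT (fun j hj => (h4 j hj).2) hVn hUn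
        | false =>
          left
          refine ⟨by simp [dg, hUn, hVn, h3], fun j hj => ?_⟩
          rcases Nat.lt_or_ge j n with h5 | h5
          · exact h4 j h5
          · obtain rfl : j = n := by omega
            exact ⟨hUn, hVn⟩
    · right
      exact deg_step U V hUV T hT h1 h3
    · right
      have h4 := deg_step V U (fun n a b => hUV n b a) T hT h2 h3
      rcases h4 with h4 | h4
      · exact Or.inr h4
      · exact Or.inl h4

theorem dg_linear (U V : ℕ → Bool) (hUV : ∀ n, U n = true → V n = true → False) (T1 : ℕ)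
    (h1 : ∀ s1 s2 s3 : ℕ, T1 ≤ s2 → s1 ≤ s2 → s2 < s3 → (s1 = 0 ∨ V s1 = true) →
      (∀ n, s1 ≤ n → n < s2 → U n = false) → U s2 = true → V s3 = true → 2 * s2 ≤ s3)
    (h2 : ∀ s1 s2 s3 : ℕ, T1 ≤ s2 → s1 ≤ s2 → s2 < s3 → (s1 = 0 ∨ U s1 = true) →
      (∀ n, s1 ≤ n → n < s2 → V n = false) → V s2 = true → U s3 = true → 2 * s2 ≤ s3) :
    ∃ C : ℝ, 0 < C ∧ ∀ n : ℕ, (max (dg U V n).1 (dg U V n).2 : ℝ) ≤ C * (n + 1) := by
  have hT : 1 ≤ max T1 1 := le_max_right _ _
  refine ⟨2 ^ (max T1 1 + 1), by positivity, fun n => ?_⟩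
  have h3 := deg_inv U V hUV (max T1 1) hT
    (fun s1 s2 s3 a => h1 s1 s2 s3 ((le_max_left _ _).trans a))
    (fun s1 s2 s3 a => h2 s1 s2 s3 ((le_max_left _ _).trans a)) n
  have h4 : (dg U V n).1 ≤ 2 ^ (max T1 1 + 1) * (n + 1) ∧
      (dg U V n).2 ≤ 2 ^ (max T1 1 + 1) * (n + 1) := by
    rcases h3 with ⟨h3, -⟩ | h3 | h3
    · have h5 : 1 ≤ 2 ^ (max T1 1 + 1) * (n + 1) := Nat.one_le_iff_ne_zero.2 (by positivity)
      rw [h3]
      exact ⟨h5, h5⟩
    · exact deg_bound h3
    · exact (deg_bound h3).symm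
  have h5 : max (dg U V n).1 (dg U V n).2 ≤ 2 ^ (max T1 1 + 1) * (n + 1) := max_le h4.1 h4.2
  exact_mod_cast h5

end Pool.Agent.Lib.MP_bdb4fe_an
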