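import Mathlib

/-!
Definitions for the basins of sequences of quadratic shears composed with diagonal maps
(problem MP_bdb4fe_an).
-/

set_option autoImplicit false

namespace Pool.Agent.Lib.MP_bdb4fe_an

open Filter Topology Metric Set

/-- `ℂ²` with the sup norm -/
abbrev E := ℂ × ℂ

/-- a bijection of `ℂ²` which is holomorphic together with its inverse -/
def IsAut (e : E ≃ E) : Prop := Differentiable ℂ e ∧ Differentiable ℂ e.symm

/-- `up f n = f (n-1) ∘ ⋯ ∘ f 0` -/
def up (f : ℕ → (E ≃ E)) : ℕ → (E ≃ E)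
  | 0 => Equiv.refl E
  | n + 1 => (up f n).trans (f n)

/-- the basin of attraction of the origin -/
def basin (f : ℕ → (E ≃ E)) : Set E := {x | Tendsto (fun n => up f n x) atTop (𝓝 0)}

/-- the quadratic map `(z, w) ↦ (A z + p w², B w + q z²)` -/
def qmap (A B p q : ℂ) (x : E) : E := (A * x.1 + p * x.2 ^ 2, B * x.2 + q * x.1 ^ 2)

/-- its inverse if `p = 0` or `q = 0` -/
noncomputable def qinv (A B p q : ℂ) (x : E) : E :=
  ((x.1 - p * (x.2 / B) ^ 2) / A, (x.2 - q * (x.1 / A) ^ 2) / B)

theorem qinv_qmap {A B p q : ℂ} (hA : A ≠ 0) (hB : B ≠ 0) (h : p = 0 ∨ q = 0) (x : E) :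
    qinv A B p q (qmap A B p q x) = x := by
  rcases h with h | h <;> subst h <;> ext <;> simp [qinv, qmap] <;> field_simp <;> ring

theorem qmap_qinv {A B p q : ℂ} (hA : A ≠ 0) (hB : B ≠ 0) (h : p = 0 ∨ q = 0) (x : E) :
    qmap A B p q (qinv A B p q x) = x := by
  rcases h with h | h <;> subst h <;> ext <;> simp [qinv, qmap] <;> field_simp <;> ring

/-- the quadratic map as a bijection -/
noncomputable def qeq (A B p q : ℂ) (hA : A ≠ 0) (hB : B ≠ 0) (h : p = 0 ∨ q = 0) : E ≃ E where
  toFun := qmap A B p q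
  invFun := qinv A B p q
  left_inv := qinv_qmap hA hB h
  right_inv := qmap_qinv hA hB h

/-- the linear map with matrix `(a, b; c, d)` -/
noncomputable def lin (a b c d : ℂ) : E →L[ℂ] E :=
  (a • ContinuousLinearMap.fst ℂ ℂ ℂ + b • ContinuousLinearMap.snd ℂ ℂ ℂ).prod
    (c • ContinuousLinearMap.fst ℂ ℂ ℂ + d • ContinuousLinearMap.snd ℂ ℂ ℂ)

/-- `g` has a derivative with Jacobian determinant of modulus `δ` everywhere -/
def HasJ (g : E → E) (δ : ℝ) : Prop :=
  ∀ x, ∃ a b c d : ℂ, HasFDerivAt g (lin a b c d) x ∧ ‖a * d - b * c‖ = δ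

/-- majorants of the two coordinates on the polydisc of radius `R`: at step `n` the first one is
multiplied by `α` (if `F n`) or `β` (if not), the second one the other way round; if `U n`, then
`c` times the square of the second one is added to the first one, if `V n`, then `c` times the
square of the first one is added to the second one -/
noncomputable def maj (α β c : ℝ) (F U V : ℕ → Bool) (R : ℝ) : ℕ → ℝ × ℝ
  | 0 => (R, R)
  | n + 1 =>
    ((if F n then α else β) * (maj α β c F U V R n).1 +
        (if U n then c * (maj α β c F U V R n).2 ^ 2 else 0),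
      (if F n then β else α) * (maj α β c F U V R n).2 +
        (if V n then c * (maj α β c F U V R n).1 ^ 2 else 0))

/-- bounds for the degrees of the two coordinates -/
def dg (U V : ℕ → Bool) : ℕ → ℕ × ℕ
  | 0 => (1, 1)
  | n + 1 =>
    (if U n then max (dg U V n).1 (2 * (dg U V n).2) else (dg U V n).1,
      if V n then max (dg U V n).2 (2 * (dg U V n).1) else (dg U V n).2)

/-- the number of `n` in `[s, t)` with `F n` -/
def cnt (F : ℕ → Bool) (s t : ℕ) : ℕ := ((Finset.Ico s t).filter (fun n => F n = true)).card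

/-- `x`, `y` are the majorants at radius `2` (initial value `2`) of a run with types `F` and keeps
`U` (of the first coordinate), `V` (of the second one) -/
structure Run (α β c : ℝ) (x y : ℕ → ℝ) (F U V : ℕ → Bool) : Prop where
  x0 : x 0 = 2
  y0 : y 0 = 2
  hx : ∀ n, x (n + 1) = (if F n then α else β) * x n + (if U n then c * y n ^ 2 else 0)
  hy : ∀ n, y (n + 1) = (if F n then β else α) * y n + (if V n then c * x n ^ 2 else 0)

theorem Run.swap {α β c : ℝ} {x y : ℕ → ℝ} {F U V : ℕ → Bool} (h : Run α β c x y F U V) :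
    Run α β c y x (fun n => !F n) V U where
  x0 := h.y0
  y0 := h.x0
  hx := fun n => by rw [h.hy n]; cases F n <;> simp
  hy := fun n => by rw [h.hx n]; cases F n <;> simp

/-- the standing assumptions on the constants -/
structure Const (α β c : ℝ) : Prop where
  hα0 : 0 < α
  hα1 : α < 1
  hβ0 : 0 < β
  hβα : β ≤ α ^ 2
  hβ2 : α ^ 7 < β ^ 2
  hc0 : 0 ≤ c
  hc : 9 * c ≤ β * (1 - α)

end Pool.Agent.Lib.MP_bdb4fe_an
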