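import Pool.Agent.Lib.MP_bdb4fe_an.Defs

/-!
Module ERR. Pulling a small shear back by an automorphism which is small on the bidisc of
radius `2`.
-/

set_option autoImplicit false

namespace Pool.Agent.Lib.MP_bdb4fe_an

open Filter Topology Metric Set

theorem lin_apply (a b c d : ℂ) (x : E) :
    lin a b c d x = (a * x.1 + b * x.2, c * x.1 + d * x.2) := by
  simp [lin]

/-- Cauchy's estimate for the derivatives of the second coordinate. -/
theorem err_cauchy (G : E → E) (hG : Differentiable ℂ G) (y : ℝ)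
    (hW : ∀ x : E, ‖x‖ ≤ 2 → ‖(G x).2‖ ≤ y) (p : E) (hp : ‖p‖ ≤ 3 / 2) (a b c d : ℂ)
    (hd : HasFDerivAt G (lin a b c d) p) : ‖c‖ ≤ 2 * y ∧ ‖d‖ ≤ 2 * y := by
  have hp1 : ‖p.1‖ ≤ 3 / 2 := (norm_fst_le p).trans hp
  have hp2 : ‖p.2‖ ≤ 3 / 2 := (norm_snd_le p).trans hp
  constructor
  · have h1 : HasDerivAt (fun t : ℂ => ((t, p.2) : E)) ((1, 0) : E) p.1 :=
      (hasDerivAt_id p.1).prodMk (hasDerivAt_const p.1 p.2)
    have h2 : HasDerivAt (fun t : ℂ => G (t, p.2)) (lin a b c d (1, 0)) p.1 :=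
      HasFDerivAt.comp_hasDerivAt p.1 (f := fun t : ℂ => ((t, p.2) : E)) hd h1
    have h3 : HasDerivAt (fun t : ℂ => (G (t, p.2)).2) (lin a b c d (1, 0)).2 p.1 := h2.snd
    have h4 : deriv (fun t : ℂ => (G (t, p.2)).2) p.1 = c := by
      rw [h3.deriv, lin_apply]; simp
    have h5 : Differentiable ℂ (fun t : ℂ => (G (t, p.2)).2) :=
      (hG.comp (differentiable_id.prodMk (differentiable_const p.2))).snd
    have h6 := Complex.norm_deriv_le_of_forall_mem_sphere_norm_le
      (f := fun t : ℂ => (G (t, p.2)).2) (c := p.1) (R := 1 / 2) (C := y) (by norm_num)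
      h5.diffContOnCl (by
        intro z hz
        apply hW
        rw [mem_sphere_iff_norm] at hz
        rw [Prod.norm_def]
        refine max_le ?_ (hp2.trans (by norm_num))
        have : ‖z‖ ≤ ‖z - p.1‖ + ‖p.1‖ := by
          have := norm_add_le (z - p.1) p.1
          simpa using this
        show ‖z‖ ≤ 2
        linarith)
    rw [h4] at h6
    linarith
  · have h1 : HasDerivAt (fun t : ℂ => ((p.1, t) : E)) ((0, 1) : E) p.2 :=
      (hasDerivAt_const p.2 p.1).prodMk (hasDerivAt_id p.2)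
    have h2 : HasDerivAt (fun t : ℂ => G (p.1, t)) (lin a b c d (0, 1)) p.2 :=
      HasFDerivAt.comp_hasDerivAt p.2 (f := fun t : ℂ => ((p.1, t) : E)) hd h1
    have h3 : HasDerivAt (fun t : ℂ => (G (p.1, t)).2) (lin a b c d (0, 1)).2 p.2 := h2.snd
    have h4 : deriv (fun t : ℂ => (G (p.1, t)).2) p.2 = d := by
      rw [h3.deriv, lin_apply]; simp
    have h5 : Differentiable ℂ (fun t : ℂ => (G (p.1, t)).2) :=
      (hG.comp ((differentiable_const p.1).prodMk differentiable_id)).snd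
    have h6 := Complex.norm_deriv_le_of_forall_mem_sphere_norm_le
      (f := fun t : ℂ => (G (p.1, t)).2) (c := p.2) (R := 1 / 2) (C := y) (by norm_num)
      h5.diffContOnCl (by
        intro z hz
        apply hW
        rw [mem_sphere_iff_norm] at hz
        rw [Prod.norm_def]
        refine max_le (hp1.trans (by norm_num)) ?_
        have : ‖z‖ ≤ ‖z - p.2‖ + ‖p.2‖ := by
          have := norm_add_le (z - p.2) p.2
          simpa using this
        show ‖z‖ ≤ 2
        linarith)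
    rw [h4] at h6
    linarith

theorem err_upper (G : E ≃ E) (hG : IsAut G) (δ y : ℝ) (hδ : 0 < δ) (hJ : HasJ G δ)
    (hW : ∀ x : E, ‖x‖ ≤ 2 → ‖(G x).2‖ ≤ y) (c : ℂ) (η : ℝ) (hη : 2 * ‖c‖ * y ^ 3 < η * δ)
    (hη4 : η ≤ 1 / 4) (x : E) (hx : ‖x‖ ≤ 5 / 4) :
    ‖G.symm ((G x).1 + c * (G x).2 ^ 2, (G x).2) - x‖ ≤ η := by
  obtain ⟨hG1, hG2⟩ := hG
  have hu : ‖(G x).2‖ ≤ y := hW x (by linarith)
  have hy : 0 ≤ y := (norm_nonneg _).trans hu
  have hη0 : 0 < η := by
    by_contra hneg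
    push Not at hneg
    have h1 : η * δ ≤ 0 := mul_nonpos_of_nonpos_of_nonneg hneg hδ.le
    have h2 : 0 ≤ 2 * ‖c‖ * y ^ 3 := by positivity
    linarith
  set u : E := G x with hudef
  set v : E := (c * u.2 ^ 2, 0) with hv
  have hv1 : ‖v.1‖ ≤ ‖c‖ * y ^ 2 := by
    show ‖c * u.2 ^ 2‖ ≤ _
    rw [norm_mul, norm_pow]
    exact mul_le_mul_of_nonneg_left (pow_le_pow_left₀ (norm_nonneg _) hu 2) (norm_nonneg _)
  let γ : ℝ → E := fun s => G.symm (u + s • v)
  let ξ : ℝ → E := fun s => fderiv ℂ G.symm (u + s • v) v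
  have hline : ∀ s : ℝ, HasDerivAt (fun s : ℝ => u + s • v) v s := by
    intro s
    have h1 : HasDerivAt (fun s : ℝ => s • v) ((1 : ℝ) • v) s := (hasDerivAt_id s).smul_const v
    rw [one_smul] at h1
    exact h1.const_add u
  have hγ : ∀ s : ℝ, HasDerivAt γ (ξ s) s := by
    intro s
    have h2 : HasFDerivAt G.symm (fderiv ℂ G.symm (u + s • v)) (u + s • v) :=
      (hG2 (u + s • v)).hasFDerivAt
    have h3 := h2.restrictScalars ℝ
    exact HasFDerivAt.comp_hasDerivAt s h3 (hline s)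
  have hγc : Continuous γ := continuous_iff_continuousAt.2 (fun s => (hγ s).continuousAt)
  have hξ : ∀ s : ℝ, ‖γ s‖ ≤ 3 / 2 → ‖ξ s‖ < η := by
    intro s hs
    obtain ⟨a, b, c', d, hd, hD⟩ := hJ (γ s)
    obtain ⟨hc', hd'⟩ := err_cauchy G hG1 y hW (γ s) hs a b c' d hd
    have hGγ : G (γ s) = u + s • v := G.apply_symm_apply _
    have h2 : HasFDerivAt G.symm (fderiv ℂ G.symm (u + s • v)) (u + s • v) :=
      (hG2 (u + s • v)).hasFDerivAt
    have h3 : HasFDerivAt (fun z => G (G.symm z))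
        ((lin a b c' d).comp (fderiv ℂ G.symm (u + s • v))) (u + s • v) :=
      HasFDerivAt.comp (u + s • v) hd h2
    have h4 : HasFDerivAt (fun z => G (G.symm z)) (ContinuousLinearMap.id ℂ E) (u + s • v) := by
      have : (fun z => G (G.symm z)) = id := by
        funext z; simp
      rw [this]
      exact hasFDerivAt_id _
    have h5 := h3.unique h4
    have h6 : lin a b c' d (ξ s) = v := by
      have := congrArg (fun L : E →L[ℂ] E => L v) h5
      exact this
    rw [lin_apply] at h6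
    have e1 : a * (ξ s).1 + b * (ξ s).2 = v.1 := congrArg Prod.fst h6
    have e2 : c' * (ξ s).1 + d * (ξ s).2 = 0 := congrArg Prod.snd h6
    have e3 : (a * d - b * c') * (ξ s).1 = d * v.1 := by
      rw [← e1]
      linear_combination (-b) * e2
    have e4 : (a * d - b * c') * (ξ s).2 = - c' * v.1 := by
      rw [← e1]
      linear_combination a * e2
    have n1 : δ * ‖(ξ s).1‖ ≤ 2 * y * (‖c‖ * y ^ 2) := by
      rw [← hD, ← norm_mul, e3, norm_mul]
      exact mul_le_mul hd' hv1 (norm_nonneg _) (by positivity)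
    have n2 : δ * ‖(ξ s).2‖ ≤ 2 * y * (‖c‖ * y ^ 2) := by
      rw [← hD, ← norm_mul, e4, norm_mul, norm_neg]
      exact mul_le_mul hc' hv1 (norm_nonneg _) (by positivity)
    have n3 : 2 * y * (‖c‖ * y ^ 2) < η * δ := by
      refine lt_of_eq_of_lt ?_ hη
      ring
    rw [Prod.norm_def]
    refine max_lt ?_ ?_
    · by_contra hcon
      push Not at hcon
      have := mul_le_mul_of_nonneg_left hcon hδ.le
      linarith
    · by_contra hcon
      push Not at hcon
      have := mul_le_mul_of_nonneg_left hcon hδ.le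
      linarith
  have hγ0 : γ 0 = x := by
    show G.symm (u + (0 : ℝ) • v) = x
    rw [zero_smul, add_zero, hudef, Equiv.symm_apply_apply]
  have hfin := image_norm_le_of_norm_deriv_right_lt_deriv_boundary'
    (f := fun s => γ s - x) (f' := ξ) (a := 0) (b := 1) (B := fun s => η * s) (B' := fun _ => η)
    ((hγc.sub continuous_const).continuousOn)
    (fun s _ => ((hγ s).sub_const x).hasDerivWithinAt)
    (by simp [hγ0])
    ((continuous_const.mul continuous_id).continuousOn)
    (fun s _ => by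
      have := (hasDerivAt_id s).const_mul η
      rw [mul_one] at this
      exact this.hasDerivWithinAt)
    (by
      intro s hs heq
      apply hξ
      have h1 : ‖γ s - x‖ ≤ 1 / 4 := by
        have heq' : ‖γ s - x‖ = η * s := heq
        rw [heq']
        have h2 : η * s ≤ η * 1 := mul_le_mul_of_nonneg_left hs.2.le hη0.le
        linarith
      have h2 : ‖γ s‖ ≤ ‖γ s - x‖ + ‖x‖ := by
        have := norm_add_le (γ s - x) x
        simpa using this
      linarith)
    (right_mem_Icc.2 (zero_le_one : (0 : ℝ) ≤ 1))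
  have e1 : γ 1 = G.symm (u.1 + c * u.2 ^ 2, u.2) := by
    show G.symm (u + (1 : ℝ) • v) = _
    rw [one_smul]
    congr 1
    ext
    · simp [hv]
    · simp [hv]
  have hfin' : ‖γ 1 - x‖ ≤ η * 1 := hfin
  rw [mul_one, e1] at hfin'
  exact hfin'

theorem err_lower (G : E ≃ E) (hG : IsAut G) (δ y : ℝ) (hδ : 0 < δ) (hJ : HasJ G δ)
    (hZ : ∀ x : E, ‖x‖ ≤ 2 → ‖(G x).1‖ ≤ y) (c : ℂ) (η : ℝ) (hη : 2 * ‖c‖ * y ^ 3 < η * δ)
    (hη4 : η ≤ 1 / 4) (x : E) (hx : ‖x‖ ≤ 5 / 4) :
    ‖G.symm ((G x).1, (G x).2 + c * (G x).1 ^ 2) - x‖ ≤ η := by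
  have h := err_upper (G.trans (Equiv.prodComm ℂ ℂ)) ?_ δ y hδ ?_ (fun x hx => hZ x hx) c η hη
    hη4 x hx
  · exact h
  · constructor
    · exact hG.1.snd.prodMk hG.1.fst
    · exact hG.2.comp (differentiable_snd.prodMk differentiable_fst)
  · intro p
    obtain ⟨a, b, c', d, hd, hD⟩ := hJ p
    refine ⟨c', d, a, b, ?_, ?_⟩
    · have h1 : HasFDerivAt (fun z => ((G z).2, (G z).1))
          (((ContinuousLinearMap.snd ℂ ℂ ℂ).comp (lin a b c' d)).prod
            ((ContinuousLinearMap.fst ℂ ℂ ℂ).comp (lin a b c' d))) p := hd.snd.prodMk hd.fst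
      have h2 : (((ContinuousLinearMap.snd ℂ ℂ ℂ).comp (lin a b c' d)).prod
            ((ContinuousLinearMap.fst ℂ ℂ ℂ).comp (lin a b c' d))) = lin c' d a b := by
        ext <;> simp [lin]
      rw [h2] at h1
      exact h1
    · rw [← hD, ← norm_neg]
      congr 1
      ring

end Pool.Agent.Lib.MP_bdb4fe_an
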