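import Pool.Agent.Lib.MP_bdb4fe_an.Defs

/-!
Module RAD. If the degrees grow at most linearly, then the majorants at every radius
become small.

PROOF. Write `X n R = (maj … R n).1`, `Y n R = (maj … R n).2`, `P n = (dg U V n).1`,
`Q n = (dg U V n).2`. (a) `X, Y ≥ 0` for `R ≥ 0`, and monotone in `R ≥ 0` (induction).
(b) For `t ≥ 1`, `R ≥ 0`: `X n (t R) ≤ t ^ P n * X n R`, `Y n (t R) ≤ t ^ Q n * Y n R` (induction:
`c (Y n (tR))² ≤ t^(2 Q n) c (Y n R)²`, and `t^j` is monotone in `j`).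
(c) Put `γ = α + c < 1`, `δ = -log γ > 0` and `M n = max (P n) (Q n) ≥ 1`. Define `r 0 = 1`,
`r (n+1) = r n * (1 + δ / M (n+1))`. Then `X n (r n) ≤ 1` and `Y n (r n) ≤ 1` for all `n`: at the
same radius `r n` the next majorants are `≤ α * 1 + c * 1 = γ`, and enlarging the radius by the factor
`t = 1 + δ/M` multiplies them by at most `t ^ M ≤ exp δ = 1/γ` (`Real.add_one_le_exp`).
(d) `r n ≥ 1 + δ ∑_{j<n} 1 / M (j+1)` and `1 / M (j+1) ≥ 1 / (C (j+2))`, so `r n → ∞`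
(`Real.tendsto_sum_range_one_div_nat_succ_atTop`).
(e) Given `R`, take `n ≥ 1` with `r n ≥ |R|`: `X n |R| ≤ 1`, `Y n |R| ≤ 1`; after that the larger of the
two is multiplied by at most `γ` in each step (as long as it is `≤ 1`), so after enough steps both
are `≤ 1/2`. For `R ≥ 0` this is the claim.
-/

set_option autoImplicit false

namespace Pool.Agent.Lib.MP_bdb4fe_an

open Filter Topology Metric Set

theorem maj_nonneg (α β c : ℝ) (hα : 0 ≤ α) (hβ : 0 ≤ β) (hc : 0 ≤ c) (F U V : ℕ → Bool)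
    (R : ℝ) (hR : 0 ≤ R) (n : ℕ) :
    0 ≤ (maj α β c F U V R n).1 ∧ 0 ≤ (maj α β c F U V R n).2 := by
  induction n with
  | zero => exact ⟨hR, hR⟩
  | succ n ih =>
    obtain ⟨h1, h2⟩ := ih
    constructor
    · show 0 ≤ (if F n then α else β) * (maj α β c F U V R n).1 +
        (if U n then c * (maj α β c F U V R n).2 ^ 2 else 0)
      refine add_nonneg (mul_nonneg ?_ h1) ?_
      · split_ifs <;> assumption
      · split_ifs
        · positivity
        · exact le_rfl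
    · show 0 ≤ (if F n then β else α) * (maj α β c F U V R n).2 +
        (if V n then c * (maj α β c F U V R n).1 ^ 2 else 0)
      refine add_nonneg (mul_nonneg ?_ h2) ?_
      · split_ifs <;> assumption
      · split_ifs
        · positivity
        · exact le_rfl

/-- one step, monotone in the data -/
theorem rad_mono1 {γ c a a' b b' : ℝ} (hγ : 0 ≤ γ) (hc : 0 ≤ c) (hb : 0 ≤ b)
    (h1 : a ≤ a') (h2 : b ≤ b') (u : Bool) :
    γ * a + (if u then c * b ^ 2 else 0) ≤ γ * a' + (if u then c * b' ^ 2 else 0) := by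
  refine add_le_add (mul_le_mul_of_nonneg_left h1 hγ) ?_
  cases u
  · simp
  · simp only [if_true]
    exact mul_le_mul_of_nonneg_left (pow_le_pow_left₀ hb h2 2) hc

theorem rad_ite (F : Bool) {α β : ℝ} (hα : 0 ≤ α) (hβ : 0 ≤ β) : 0 ≤ (if F then α else β) := by
  split_ifs <;> assumption

theorem rad_mono (α β c : ℝ) (hα : 0 ≤ α) (hβ : 0 ≤ β) (hc : 0 ≤ c) (F U V : ℕ → Bool)
    {R R' : ℝ} (hR : 0 ≤ R) (hRR : R ≤ R') (n : ℕ) :
    (maj α β c F U V R n).1 ≤ (maj α β c F U V R' n).1 ∧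
    (maj α β c F U V R n).2 ≤ (maj α β c F U V R' n).2 := by
  induction n with
  | zero => exact ⟨hRR, hRR⟩
  | succ n ih =>
    obtain ⟨h1, h2⟩ := ih
    obtain ⟨h3, h4⟩ := maj_nonneg α β c hα hβ hc F U V R hR n
    exact ⟨rad_mono1 (rad_ite (F n) hα hβ) hc h4 h1 h2 (U n),
      rad_mono1 (rad_ite (F n) hβ hα) hc h3 h2 h1 (V n)⟩

/-- one step, scaling -/
theorem rad_scale1 {γ c a b t : ℝ} (hγ : 0 ≤ γ) (hc : 0 ≤ c) (ha : 0 ≤ a)
    (ht : 1 ≤ t) (P Q : ℕ) (u : Bool) :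
    γ * (t ^ P * a) + (if u then c * (t ^ Q * b) ^ 2 else 0) ≤
      t ^ (if u then max P (2 * Q) else P) * (γ * a + (if u then c * b ^ 2 else 0)) := by
  cases u
  · simp only [Bool.false_eq_true, if_false, add_zero]
    linarith [show γ * (t ^ P * a) = t ^ P * (γ * a) by ring]
  · simp only [if_true]
    have h1 : t ^ P ≤ t ^ (max P (2 * Q)) := pow_le_pow_right₀ ht (le_max_left _ _)
    have h2 : t ^ (2 * Q) ≤ t ^ (max P (2 * Q)) := pow_le_pow_right₀ ht (le_max_right _ _)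
    have h3 : t ^ P * (γ * a) ≤ t ^ (max P (2 * Q)) * (γ * a) :=
      mul_le_mul_of_nonneg_right h1 (by positivity)
    have h4 : t ^ (2 * Q) * (c * b ^ 2) ≤ t ^ (max P (2 * Q)) * (c * b ^ 2) :=
      mul_le_mul_of_nonneg_right h2 (by positivity)
    have e1 : γ * (t ^ P * a) = t ^ P * (γ * a) := by ring
    have e2 : c * (t ^ Q * b) ^ 2 = t ^ (2 * Q) * (c * b ^ 2) := by ring
    rw [e1, e2]
    linarith

theorem rad_scale (α β c : ℝ) (hα : 0 ≤ α) (hβ : 0 ≤ β) (hc : 0 ≤ c) (F U V : ℕ → Bool)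
    {R t : ℝ} (hR : 0 ≤ R) (ht : 1 ≤ t) (n : ℕ) :
    (maj α β c F U V (t * R) n).1 ≤ t ^ (dg U V n).1 * (maj α β c F U V R n).1 ∧
    (maj α β c F U V (t * R) n).2 ≤ t ^ (dg U V n).2 * (maj α β c F U V R n).2 := by
  induction n with
  | zero =>
    constructor
    · show t * R ≤ t ^ 1 * R
      rw [pow_one]
    · show t * R ≤ t ^ 1 * R
      rw [pow_one]
  | succ n ih =>
    obtain ⟨h1, h2⟩ := ih
    have htR : 0 ≤ t * R := mul_nonneg (by linarith) hR
    obtain ⟨h3, h4⟩ := maj_nonneg α β c hα hβ hc F U V R hR n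
    obtain ⟨h5, h6⟩ := maj_nonneg α β c hα hβ hc F U V (t * R) htR n
    exact ⟨(rad_mono1 (rad_ite (F n) hα hβ) hc h6 h1 h2 (U n)).trans
        (rad_scale1 (rad_ite (F n) hα hβ) hc h3 ht _ _ (U n)),
      (rad_mono1 (rad_ite (F n) hβ hα) hc h5 h2 h1 (V n)).trans
        (rad_scale1 (rad_ite (F n) hβ hα) hc h4 ht _ _ (V n))⟩

/-- one step below one -/
theorem rad_contr {α β c ρ : ℝ} (hα : 0 < α) (hβ : 0 < β) (hβα : β ≤ α) (hc : 0 ≤ c)
    (F : Bool) {a b : ℝ} (ha : 0 ≤ a) (ha1 : a ≤ ρ) (hb : 0 ≤ b) (hb1 : b ≤ ρ) (hρ : ρ ≤ 1)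
    (u : Bool) {γ : ℝ} (hγ : γ = α ∨ γ = β) :
    γ * a + (if u then c * b ^ 2 else 0) ≤ (α + c) * ρ := by
  have hγ0 : 0 ≤ γ := by rcases hγ with rfl | rfl <;> linarith
  have hγ1 : γ ≤ α := by rcases hγ with rfl | rfl <;> linarith
  have hρ0 : 0 ≤ ρ := ha.trans ha1
  have h1 : γ * a ≤ α * ρ := mul_le_mul hγ1 ha1 ha hα.le
  have h2 : b ^ 2 ≤ ρ := by nlinarith
  have h3 : (if u then c * b ^ 2 else 0) ≤ c * ρ := by
    cases u
    · simp only [Bool.false_eq_true, if_false]; positivity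
    · simp only [if_true]; exact mul_le_mul_of_nonneg_left h2 hc
  linarith

theorem rad_exp {δ M : ℝ} {P N : ℕ} (hδ : 0 ≤ δ) (hM : M = N) (hN : 1 ≤ N) (hP : P ≤ N) :
    (1 + δ / M) ^ P ≤ Real.exp δ := by
  have hN0 : (0 : ℝ) < N := by exact_mod_cast hN
  have h1 : (1 : ℝ) ≤ 1 + δ / M := by
    rw [hM]
    have : 0 ≤ δ / N := by positivity
    linarith
  calc (1 + δ / M) ^ P ≤ (1 + δ / M) ^ N := pow_le_pow_right₀ h1 hP
    _ ≤ (Real.exp (δ / M)) ^ N := by
        refine pow_le_pow_left₀ (by linarith) ?_ N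
        linarith [Real.add_one_le_exp (δ / M)]
    _ = Real.exp δ := by
        rw [← Real.exp_nat_mul, hM]
        congr 1
        field_simp

/-- the radii -/
noncomputable def rad_r (δ : ℝ) (U V : ℕ → Bool) : ℕ → ℝ
  | 0 => 1
  | n + 1 => (1 + δ / ((max (dg U V (n + 1)).1 (dg U V (n + 1)).2 : ℕ) : ℝ)) * rad_r δ U V n

theorem rad_dg_pos (U V : ℕ → Bool) (n : ℕ) : 1 ≤ (dg U V n).1 ∧ 1 ≤ (dg U V n).2 := by
  induction n with
  | zero => exact ⟨le_rfl, le_rfl⟩
  | succ n ih =>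
    obtain ⟨h1, h2⟩ := ih
    constructor
    · show 1 ≤ (if U n then max (dg U V n).1 (2 * (dg U V n).2) else (dg U V n).1)
      split_ifs
      · exact h1.trans (le_max_left _ _)
      · exact h1
    · show 1 ≤ (if V n then max (dg U V n).2 (2 * (dg U V n).1) else (dg U V n).2)
      split_ifs
      · exact h2.trans (le_max_left _ _)
      · exact h2

theorem rad_r_ge {δ : ℝ} (hδ : 0 ≤ δ) (U V : ℕ → Bool) (n : ℕ) : 1 ≤ rad_r δ U V n := by
  induction n with
  | zero => exact le_rfl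
  | succ n ih =>
    show 1 ≤ (1 + δ / ((max (dg U V (n + 1)).1 (dg U V (n + 1)).2 : ℕ) : ℝ)) * rad_r δ U V n
    have h1 : 0 ≤ δ / ((max (dg U V (n + 1)).1 (dg U V (n + 1)).2 : ℕ) : ℝ) := by positivity
    nlinarith

theorem rad_r_sum {δ C : ℝ} (hδ : 0 ≤ δ) (hC0 : 0 < C) (U V : ℕ → Bool)
    (hC : ∀ n : ℕ, (max (dg U V n).1 (dg U V n).2 : ℝ) ≤ C * (n + 1)) (n : ℕ) :
    δ / (2 * C) * ∑ i ∈ Finset.range n, (1 / ((i : ℝ) + 1)) ≤ rad_r δ U V n := by
  induction n with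
  | zero => simp [rad_r]
  | succ n ih =>
    rw [Finset.sum_range_succ, mul_add]
    show _ ≤ (1 + δ / ((max (dg U V (n + 1)).1 (dg U V (n + 1)).2 : ℕ) : ℝ)) * rad_r δ U V n
    have h1 := rad_r_ge hδ U V n
    have h2 : δ / (2 * C) * (1 / ((n : ℝ) + 1)) ≤
        δ / ((max (dg U V (n + 1)).1 (dg U V (n + 1)).2 : ℕ) : ℝ) := by
      have h3 := hC (n + 1)
      have h4 : ((max (dg U V (n + 1)).1 (dg U V (n + 1)).2 : ℕ) : ℝ) ≤ C * (((n + 1 : ℕ) : ℝ) + 1) := by
        push_cast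
        push_cast at h3
        exact h3
      have h5 : (0 : ℝ) < ((max (dg U V (n + 1)).1 (dg U V (n + 1)).2 : ℕ) : ℝ) := by
        have : 0 < max (dg U V (n + 1)).1 (dg U V (n + 1)).2 :=
          lt_of_lt_of_le Nat.zero_lt_one ((rad_dg_pos U V (n + 1)).1.trans (le_max_left _ _))
        exact_mod_cast this
      rw [div_mul_div_comm, mul_one]
      refine div_le_div_of_nonneg_left hδ h5 ?_
      refine h4.trans ?_
      push_cast
      have hn : (0 : ℝ) ≤ n := Nat.cast_nonneg n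
      nlinarith
    have h6 : 0 ≤ δ / ((max (dg U V (n + 1)).1 (dg U V (n + 1)).2 : ℕ) : ℝ) := by positivity
    nlinarith

theorem rad_one (α β c : ℝ) (hα : 0 < α) (hβ : 0 < β) (hβα : β ≤ α) (hc : 0 ≤ c)
    (hαc : α + c < 1) (F U V : ℕ → Bool) (n : ℕ) :
    (maj α β c F U V (rad_r (-Real.log (α + c)) U V n) n).1 ≤ 1 ∧
    (maj α β c F U V (rad_r (-Real.log (α + c)) U V n) n).2 ≤ 1 := by
  have hγ0 : 0 < α + c := by linarith
  have hδ : 0 ≤ -Real.log (α + c) := by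
    have := Real.log_nonpos hγ0.le hαc.le
    linarith
  induction n with
  | zero => exact ⟨le_rfl, le_rfl⟩
  | succ n ih =>
    obtain ⟨h1, h2⟩ := ih
    set δ := -Real.log (α + c) with hδd
    have hr := rad_r_ge hδ U V n
    obtain ⟨h3, h4⟩ := maj_nonneg α β c hα.le hβ.le hc F U V (rad_r δ U V n) (by linarith) n
    have hexp : Real.exp δ * (α + c) = 1 := by
      rw [hδd, Real.exp_neg, Real.exp_log hγ0]
      exact inv_mul_cancel₀ hγ0.ne'
    have h5 : (maj α β c F U V (rad_r δ U V n) (n + 1)).1 ≤ α + c := by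
      have := rad_contr hα hβ hβα hc (F n) h3 h1 h4 h2 le_rfl (U n)
        (γ := if F n then α else β) (by cases F n <;> simp)
      rw [mul_one] at this
      exact this
    have h6 : (maj α β c F U V (rad_r δ U V n) (n + 1)).2 ≤ α + c := by
      have := rad_contr hα hβ hβα hc (F n) h4 h2 h3 h1 le_rfl (V n)
        (γ := if F n then β else α) (by cases F n <;> simp)
      rw [mul_one] at this
      exact this
    set N := max (dg U V (n + 1)).1 (dg U V (n + 1)).2 with hN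
    have hN1 : 1 ≤ N := (rad_dg_pos U V (n + 1)).1.trans (le_max_left _ _)
    have ht : (1 : ℝ) ≤ 1 + δ / (N : ℝ) := by
      have : 0 ≤ δ / (N : ℝ) := by positivity
      linarith
    obtain ⟨h7, h8⟩ := rad_scale α β c hα.le hβ.le hc F U V (R := rad_r δ U V n) (by linarith) ht
      (n + 1)
    obtain ⟨h9, h10⟩ := maj_nonneg α β c hα.le hβ.le hc F U V (rad_r δ U V n) (by linarith) (n + 1)
    constructor
    · refine h7.trans ?_
      have h11 := rad_exp (δ := δ) (M := (N : ℝ)) hδ rfl hN1 (le_max_left (dg U V (n + 1)).1 _)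
      calc (1 + δ / (N : ℝ)) ^ (dg U V (n + 1)).1 * (maj α β c F U V (rad_r δ U V n) (n + 1)).1
          ≤ Real.exp δ * (α + c) := mul_le_mul h11 h5 h9 (Real.exp_pos _).le
        _ = 1 := hexp
    · refine h8.trans ?_
      have h11 := rad_exp (δ := δ) (M := (N : ℝ)) hδ rfl hN1 (le_max_right _ (dg U V (n + 1)).2)
      calc (1 + δ / (N : ℝ)) ^ (dg U V (n + 1)).2 * (maj α β c F U V (rad_r δ U V n) (n + 1)).2
          ≤ Real.exp δ * (α + c) := mul_le_mul h11 h6 h10 (Real.exp_pos _).le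
        _ = 1 := hexp

theorem maj_small (α β c : ℝ) (hα : 0 < α) (hβ : 0 < β) (hβα : β ≤ α) (hc : 0 ≤ c)
    (hαc : α + c < 1) (F U V : ℕ → Bool) (C : ℝ)
    (hC : ∀ n : ℕ, (max (dg U V n).1 (dg U V n).2 : ℝ) ≤ C * (n + 1)) (R : ℝ) (hR : 0 ≤ R) :
    ∃ k : ℕ, 1 ≤ k ∧ (maj α β c F U V R k).1 ≤ 1 / 2 ∧ (maj α β c F U V R k).2 ≤ 1 / 2 := by
  have hγ0 : 0 < α + c := by linarith
  have hδ : 0 < -Real.log (α + c) := by
    have := Real.log_neg hγ0 hαc
    linarith
  have hC0 : 0 < C := by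
    have h := hC 0
    simp only [dg, Nat.cast_one, max_self, Nat.cast_zero, zero_add, mul_one] at h
    linarith
  obtain ⟨n, hn⟩ : ∃ n, R ≤ rad_r (-Real.log (α + c)) U V n := by
    have h1 := Real.tendsto_sum_range_one_div_nat_succ_atTop
    have h2 := h1.const_mul_atTop (show (0 : ℝ) < -Real.log (α + c) / (2 * C) by positivity)
    obtain ⟨n, hn⟩ := (h2.eventually_ge_atTop R).exists
    exact ⟨n, hn.trans (rad_r_sum hδ.le hC0 U V hC n)⟩
  obtain ⟨h1, h2⟩ := rad_one α β c hα hβ hβα hc hαc F U V n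
  obtain ⟨h3, h4⟩ := rad_mono α β c hα.le hβ.le hc F U V hR hn n
  have key : ∀ k : ℕ, (maj α β c F U V R (n + k)).1 ≤ (α + c) ^ k ∧
      (maj α β c F U V R (n + k)).2 ≤ (α + c) ^ k := by
    intro k
    induction k with
    | zero => exact ⟨by simpa using h3.trans h1, by simpa using h4.trans h2⟩
    | succ k ih =>
      obtain ⟨h5, h6⟩ := maj_nonneg α β c hα.le hβ.le hc F U V R hR (n + k)
      have hρ : (α + c) ^ k ≤ 1 := pow_le_one₀ hγ0.le hαc.le
      rw [pow_succ']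
      exact ⟨rad_contr hα hβ hβα hc (F (n + k)) h5 ih.1 h6 ih.2 hρ (U (n + k))
          (γ := if F (n + k) then α else β) (by cases F (n + k) <;> simp),
        rad_contr hα hβ hβα hc (F (n + k)) h6 ih.2 h5 ih.1 hρ (V (n + k))
          (γ := if F (n + k) then β else α) (by cases F (n + k) <;> simp)⟩
  obtain ⟨k, hk⟩ := exists_pow_lt_of_lt_one (show (0 : ℝ) < 1 / 2 by norm_num) hαc
  have hk1 : (α + c) ^ (k + 1) ≤ 1 / 2 := by
    have : (α + c) ^ (k + 1) ≤ (α + c) ^ k :=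
      pow_le_pow_of_le_one hγ0.le hαc.le (Nat.le_succ k)
    linarith
  exact ⟨n + (k + 1), by omega, (key (k + 1)).1.trans hk1, (key (k + 1)).2.trans hk1⟩

end Pool.Agent.Lib.MP_bdb4fe_an
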