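import Pool.Agent.Lib.MP_bdb4fe_an.RUN
import Pool.Agent.Lib.MP_bdb4fe_an.COR

/-!
Module RAT (90 min). The spacing of the keeps.

PROOF. Put `L = -log α > 0`, `K = -log β`, `k = K / L` (`2 ≤ k` from `β ≤ α²`, `2k < 7` from
`α^7 < β²`), `η = (7 - 2k)/10`, so `tht α β = exp (-(η L))`.
STEP 1 (weak form, `rat_weak`). Let `U T`, `V T'`, `T < T'`. Second coordinate: `run_lineage` for
the swapped run (`Run.swap`) with `s = 0`, `t = T` gives `τ ≤ T` (`τ = 0` or `τ = a`) with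
`y T ≤ 3 (T+1) * α^(cnt (¬F) τ T) * β^(T - τ - cnt (¬F) τ T) * α^(2τ)`; with `φ = cnt F τ T`
(`cnt_not`) the exponent (in units of L) is `k φ + (T - τ - φ) + 2τ`. Since
`ε * tht^T * (αβ)^T < (y T)^3`, taking logarithms
`3 ((k-1) φ + τ) ≤ (k - 2 + η) T + (3 log (3(T+1)) - log ε)/L`.
First coordinate: `run_lineage` with `s = τ`, `t = T`: exponent `φ + k (T-τ-φ) + τ` (first
alternative) or `2a + f + k(T-a-f)` with `τ < a ≤ T`, `f = cnt F a T ≤ φ` (`cnt_mono`), up to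
`log (3(T+1))/L`. So with `X = -log (x T) / L` hypothesis hE of module COR holds for
`r = (3 log (3(T+1)) + |log ε| + 3 log 2)/L`. `run_after` : `x T' ≤ α^(T'-T) x T + α^(T'+T)
≤ 2 max`, and `ε * tht^T' * (αβ)^T' < (x T')^3` gives h3. So `core_weak` yields
`8/5 T ≤ T' + 100 r(T)`; as `r(T) = O(log T)`, there is `T0` with `100 r(T) ≤ T/10` for `T ≥ T0`,
hence `3 T ≤ 2 T'` for `T ≥ T0` (`Real.isLittleO_log_id_atTop`, or `Real.add_one_le_exp`-type
elementary bounds).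
STEP 2 (strong form, `ratio`). Let `s1 ≤ s2 < s3` be as in the statement, `T = s2 ≥ T1`. If `V s1`
and `s1 ≥ T0` (and `s1 < s2`, since `U s2` and `V s1`... if `s1 = s2` then `V s2` and `U s2`; this
is excluded by `hUV`), then step 1 for the swapped run gives `3 s1 ≤ 2 s2`; if `s1 < T0` then
`3 s1 ≤ 2 s2` because `T1 ≥ 2 T0`. In the second alternative for the first coordinate `U (a-1)` holds
with `a ≤ s2`, so `a - 1 < s1` (no `U` in `[s1, s2)`), `a ≤ s1`, so `3a ≤ 2T` and `core_strong` applies: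
`(2 + η) T ≤ T' + 100 r(T)`, and for `T ≥ T1` `100 r(T) ≤ η T`, so `2 T ≤ T'`.
`T0`, `T1` depend only on `α, β, ε`.
-/

set_option autoImplicit false

namespace Pool.Agent.Lib.MP_bdb4fe_an

open Filter Topology Metric Set

/-- the factor `θ = (α^7/β^2)^(1/10)` in the keep rule -/
noncomputable def tht (α β : ℝ) : ℝ := Real.exp ((7 * Real.log α - 2 * Real.log β) / 10)

theorem tht_pos (α β : ℝ) : 0 < tht α β := Real.exp_pos _

theorem rat_logs {α β c : ℝ} (hk : Const α β c) :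
    0 < -Real.log α ∧ 2 * (-Real.log α) ≤ -Real.log β ∧
      2 * (-Real.log β) < 7 * (-Real.log α) := by
  have hα0 := hk.hα0
  have hβ0 := hk.hβ0
  have h1 : Real.log α < 0 := Real.log_neg hα0 hk.hα1
  have h2 : Real.log β ≤ 2 * Real.log α := by
    have := Real.log_le_log hβ0 hk.hβα
    rwa [Real.log_pow, Nat.cast_ofNat] at this
  have h3 : 7 * Real.log α < 2 * Real.log β := by
    have := Real.log_lt_log (pow_pos hα0 7) hk.hβ2
    rwa [Real.log_pow, Real.log_pow, Nat.cast_ofNat, Nat.cast_ofNat] at this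
  exact ⟨by linarith, by linarith, by linarith⟩

theorem tht_lt_one {α β c : ℝ} (hk : Const α β c) : tht α β < 1 := by
  have h := rat_logs hk
  unfold tht
  rw [Real.exp_lt_one_iff]
  linarith [h.2.2]

theorem rat_small (a b δ : ℝ) (ha : 0 ≤ a) (hδ : 0 < δ) :
    ∃ T0 : ℕ, ∀ T : ℕ, T0 ≤ T → a * Real.log (3 * ((T : ℝ) + 1)) + b ≤ δ * T := by
  have h1 : Tendsto (fun T : ℕ => 3 * ((T : ℝ) + 1)) atTop atTop := by
    apply Tendsto.const_mul_atTop (by norm_num)
    exact tendsto_atTop_add_const_right _ _ tendsto_natCast_atTop_atTop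
  have hδ' : 0 < δ / (6 * (a + 1)) := by positivity
  have h2 := (Real.isLittleO_log_id_atTop.comp_tendsto h1).def hδ'
  have h3 : ∀ᶠ T : ℕ in atTop, (a * (δ / (6 * (a + 1)) * 3) + b) / (δ / 2) ≤ (T : ℝ) :=
    tendsto_natCast_atTop_atTop.eventually_ge_atTop _
  obtain ⟨T0, hT0⟩ := eventually_atTop.1 (h2.and h3)
  refine ⟨T0, fun T hT => ?_⟩
  obtain ⟨h4, h5⟩ := hT0 T hT
  simp only [Function.comp_apply, id] at h4
  have hT' : (0 : ℝ) ≤ T := Nat.cast_nonneg T
  have h6 : Real.log (3 * ((T : ℝ) + 1)) ≤ δ / (6 * (a + 1)) * (3 * ((T : ℝ) + 1)) := by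
    have h7 : ‖(3 * ((T : ℝ) + 1))‖ = 3 * ((T : ℝ) + 1) := by
      rw [Real.norm_eq_abs, abs_of_pos (by positivity)]
    rw [h7] at h4
    exact (le_abs_self _).trans h4
  have h8 : a * Real.log (3 * ((T : ℝ) + 1)) ≤ a * (δ / (6 * (a + 1)) * (3 * ((T : ℝ) + 1))) :=
    mul_le_mul_of_nonneg_left h6 ha
  rw [div_le_iff₀ (by positivity)] at h5
  have h9 : a * (δ / (6 * (a + 1)) * (3 * (T : ℝ))) ≤ δ / 2 * T := by
    have h10 : a * (δ / (6 * (a + 1)) * 3) ≤ δ / 2 := by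
      rw [div_mul_eq_mul_div, mul_div_assoc', div_le_div_iff₀ (by positivity) (by norm_num)]
      nlinarith
    calc a * (δ / (6 * (a + 1)) * (3 * (T : ℝ))) = a * (δ / (6 * (a + 1)) * 3) * T := by ring
      _ ≤ δ / 2 * T := mul_le_mul_of_nonneg_right h10 hT'
  have h11 : a * (δ / (6 * (a + 1)) * (3 * ((T : ℝ) + 1))) =
      a * (δ / (6 * (a + 1)) * (3 * (T : ℝ))) + a * (δ / (6 * (a + 1)) * 3) := by ring
  linarith

theorem rat_data {α β c : ℝ} (hk : Const α β c) (ε : ℝ) (hε : 0 < ε) (x y : ℕ → ℝ)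
    (F U V : ℕ → Bool) (hrun : Run α β c x y F U V)
    (hU : ∀ n, U n = true → ε * tht α β ^ n * (α * β) ^ n < y n ^ 3)
    (hV : ∀ n, V n = true → ε * tht α β ^ n * (α * β) ^ n < x n ^ 3)
    (T T' : ℕ) (hTT : T < T') (hUT : U T = true) (hVT : V T' = true)
    (L k η r : ℝ) (hL : L = -Real.log α) (hkL : k * L = -Real.log β) (hη : η = (7 - 2 * k) / 10)
    (hr : r = (3 * Real.log (3 * ((T : ℝ) + 1)) + |Real.log ε| + 3 * Real.log 2) / L) :
    ∃ τ φ X : ℝ, 0 ≤ τ ∧ 0 ≤ φ ∧ 3 * ((k - 1) * φ + τ) ≤ (k - 2 + η) * T + r ∧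
      (φ + k * (T - τ - φ) + τ - r ≤ X ∨
        ∃ (a : ℕ) (f : ℝ), 1 ≤ a ∧ a ≤ T ∧ U (a - 1) = true ∧ 0 ≤ f ∧ f ≤ φ ∧ f ≤ T - a ∧
          2 * a + f + k * (T - a - f) - r ≤ X) ∧
      (3 * (X + T' - T) - r ≤ (1 + k + η) * T' ∨ 3 * (T' + T) - r ≤ (1 + k + η) * T') := by
  have hα0 := hk.hα0
  have hβ0 := hk.hβ0
  have hL0 : 0 < L := by rw [hL]; exact (rat_logs hk).1
  have hT0 : (0 : ℝ) ≤ T := Nat.cast_nonneg T
  have hlT : 0 ≤ Real.log (3 * ((T : ℝ) + 1)) := Real.log_nonneg (by linarith)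
  have hl2 : 0 ≤ Real.log 2 := Real.log_nonneg (by norm_num)
  have habs : 0 ≤ |Real.log ε| := abs_nonneg _
  have hε1 : -|Real.log ε| ≤ Real.log ε := neg_abs_le _
  have hrL : r * L = 3 * Real.log (3 * ((T : ℝ) + 1)) + |Real.log ε| + 3 * Real.log 2 := by
    rw [hr, div_mul_cancel₀ _ hL0.ne']
  have hlogα : Real.log α = -L := by rw [hL]; ring
  have hlogβ : Real.log β = -(k * L) := by rw [hkL]; ring
  have htht : Real.log (tht α β) = -(η * L) := by
    unfold tht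
    rw [Real.log_exp, hlogα, hlogβ, hη]; ring
  have htp := tht_pos α β
  -- logarithm of the keep threshold
  have hthr : ∀ n : ℕ, Real.log (ε * tht α β ^ n * (α * β) ^ n) =
      Real.log ε - (1 + k + η) * L * n := by
    intro n
    rw [Real.log_mul (by positivity) (by positivity), Real.log_mul (by positivity) (by positivity),
      Real.log_pow, Real.log_pow, Real.log_mul hα0.ne' hβ0.ne', htht, hlogα, hlogβ]
    ring
  have hkeep : ∀ (n : ℕ) (t : ℝ), 0 < t → ε * tht α β ^ n * (α * β) ^ n < t ^ 3 →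
      Real.log ε - (1 + k + η) * L * n < 3 * Real.log t := by
    intro n t ht h
    have h1 := Real.log_lt_log (by positivity) h
    rw [hthr, Real.log_pow] at h1
    simpa using h1
  -- logarithm of a linear factor
  have hfac : ∀ (i j m : ℕ) (w t : ℝ), 0 < w → 0 < t → w ≤ 3 * ((T : ℝ) + 1) →
      t ≤ w * (α ^ i * β ^ j) * α ^ m →
      Real.log t ≤ Real.log (3 * ((T : ℝ) + 1)) - L * (i + k * j + m) := by
    intro i j m w t hw ht hwT h
    have h1 := Real.log_le_log ht h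
    rw [Real.log_mul (by positivity) (by positivity), Real.log_mul (by positivity) (by positivity),
      Real.log_mul (by positivity) (by positivity), Real.log_pow, Real.log_pow, Real.log_pow,
      hlogα, hlogβ] at h1
    have h2 := Real.log_le_log hw hwT
    nlinarith
  -- lineage of the second coordinate
  have hytau : ∃ τ : ℕ, τ ≤ T ∧ y T ≤ 3 * ((T : ℝ) + 1) *
      (α ^ (cnt (fun n => !F n) τ T) * β ^ (T - τ - cnt (fun n => !F n) τ T)) * α ^ (2 * τ) := by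
    rcases run_lineage hk hrun.swap 0 T (Nat.zero_le _) with h | ⟨a, ha0, haT, _, h⟩
    · refine ⟨0, Nat.zero_le _, ?_⟩
      simpa using h
    · refine ⟨a, haT, ?_⟩
      simpa using h
  obtain ⟨τ, hτT, hyT⟩ := hytau
  have hc1 := cnt_not F τ T
  have hτT' : (τ : ℝ) ≤ T := by exact_mod_cast hτT
  set φ : ℕ := cnt F τ T with hφ
  have hφle : φ ≤ T - τ := cnt_le F τ T
  have e1 : T - τ - cnt (fun n => !F n) τ T = φ := by omega
  have e2 : ((cnt (fun n => !F n) τ T : ℕ) : ℝ) = T - τ - φ := by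
    have : cnt (fun n => !F n) τ T = T - τ - φ := by omega
    rw [this, Nat.cast_sub hφle, Nat.cast_sub hτT]
  rw [e1] at hyT
  have hypos := (run_bound hk hrun T).2.1
  have hxpos := (run_bound hk hrun T).1.1
  have hxpos' := (run_bound hk hrun T').1.1
  have hly := hfac _ _ _ _ _ (by positivity) hypos le_rfl hyT
  rw [e2] at hly
  push_cast at hly
  have hky := hkeep T (y T) hypos (hU T hUT)
  refine ⟨τ, φ, -Real.log (x T) / L, Nat.cast_nonneg _, Nat.cast_nonneg _, ?_, ?_, ?_⟩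
  · have h1 : L * (3 * ((k - 1) * φ + τ)) ≤ L * ((k - 2 + η) * T + r) := by nlinarith
    exact le_of_mul_le_mul_left h1 hL0
  · rcases run_lineage hk hrun τ T hτT with h | ⟨a, ha0, haT, hUa, h⟩
    · left
      have h1 := hfac φ (T - τ - φ) τ (3 * ((T : ℝ) - τ + 1)) (x T) (by linarith) hxpos (by
        linarith [(Nat.cast_nonneg τ : (0 : ℝ) ≤ τ)]) h
      rw [Nat.cast_sub hφle, Nat.cast_sub hτT] at h1
      rw [le_div_iff₀ hL0]
      nlinarith
    · right
      have hf1 : cnt F a T ≤ φ := cnt_mono F τ a T ha0.le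
      have hf2 : cnt F a T ≤ T - a := cnt_le F a T
      have haT' : (a : ℝ) ≤ T := by exact_mod_cast haT
      refine ⟨a, cnt F a T, by omega, haT, hUa, Nat.cast_nonneg _, by exact_mod_cast hf1, ?_, ?_⟩
      · rw [← Nat.cast_sub haT]; exact_mod_cast hf2
      · have h1 := hfac (cnt F a T) (T - a - cnt F a T) (2 * a) (3 * ((T : ℝ) - τ + 1)) (x T)
          (by linarith) hxpos (by linarith [(Nat.cast_nonneg τ : (0 : ℝ) ≤ τ)]) h
        rw [Nat.cast_sub hf2, Nat.cast_sub haT] at h1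
        push_cast at h1
        rw [le_div_iff₀ hL0]
        nlinarith
  · have hkx := hkeep T' (x T') hxpos' (hV T' hVT)
    have haf := run_after hk hrun T T' hTT.le
    have hTT' : (T : ℝ) < T' := by exact_mod_cast hTT
    rcases le_total (α ^ (T' + T)) (α ^ (T' - T) * x T) with h | h
    · left
      have h1 : x T' ≤ 2 * (α ^ (T' - T) * x T) := by linarith
      have h2 := Real.log_le_log hxpos' h1
      rw [Real.log_mul (by norm_num) (by positivity), Real.log_mul (by positivity) hxpos.ne',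
        Real.log_pow, hlogα, Nat.cast_sub hTT.le] at h2
      have h3 : L * (-Real.log (x T) / L) = -Real.log (x T) := by
        field_simp
      have h4 : L * (3 * (-Real.log (x T) / L + T' - T) - r) ≤ L * ((1 + k + η) * T') := by
        nlinarith
      exact le_of_mul_le_mul_left h4 hL0
    · right
      have h1 : x T' ≤ 2 * α ^ (T' + T) := by linarith
      have h2 := Real.log_le_log hxpos' h1
      rw [Real.log_mul (by norm_num) (by positivity), Real.log_pow, hlogα, Nat.cast_add] at h2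
      have h4 : L * (3 * ((T' : ℝ) + T) - r) ≤ L * ((1 + k + η) * T') := by
        nlinarith
      exact le_of_mul_le_mul_left h4 hL0

theorem rat_params {α β c : ℝ} (hk : Const α β c) : ∃ L k η : ℝ, 0 < L ∧ L = -Real.log α ∧
    k * L = -Real.log β ∧ η = (7 - 2 * k) / 10 ∧ 2 ≤ k ∧ 2 * k < 7 := by
  obtain ⟨h1, h2, h3⟩ := rat_logs hk
  refine ⟨-Real.log α, -Real.log β / -Real.log α, _, h1, rfl, div_mul_cancel₀ _ h1.ne', rfl, ?_, ?_⟩
  · rw [le_div_iff₀ h1]; exact h2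
  · rw [mul_div_assoc', div_lt_iff₀ h1]; linarith

theorem rat_weak {α β c : ℝ} (hk : Const α β c) (ε : ℝ) (hε : 0 < ε) :
    ∃ T0 : ℕ, ∀ (x y : ℕ → ℝ) (F U V : ℕ → Bool), Run α β c x y F U V →
      (∀ n, U n = true → ε * tht α β ^ n * (α * β) ^ n < y n ^ 3) →
      (∀ n, V n = true → ε * tht α β ^ n * (α * β) ^ n < x n ^ 3) →
      ∀ s2 s3 : ℕ, T0 ≤ s2 → s2 < s3 → U s2 = true → V s3 = true → 3 * s2 ≤ 2 * s3 := by
  obtain ⟨L, k, η, hL0, hL, hkL, hη, hk2, hk7⟩ := rat_params hk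
  obtain ⟨T0, hT0⟩ := rat_small (300 / L) (100 * (|Real.log ε| + 3 * Real.log 2) / L) (1 / 10)
    (by positivity) (by norm_num)
  refine ⟨T0, fun x y F U V hrun hU hV s2 s3 h2 h23 hUs hVs => ?_⟩
  obtain ⟨τ, φ, X, hτ, hφ, h1, hE, h3⟩ := rat_data hk ε hε x y F U V hrun hU hV s2 s3 h23 hUs hVs
    L k η _ hL hkL hη rfl
  have hr0 : 0 ≤ (3 * Real.log (3 * ((s2 : ℝ) + 1)) + |Real.log ε| + 3 * Real.log 2) / L := by
    have hlT : 0 ≤ Real.log (3 * ((s2 : ℝ) + 1)) :=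
      Real.log_nonneg (by linarith [(Nat.cast_nonneg s2 : (0 : ℝ) ≤ s2)])
    have hl2 : 0 ≤ Real.log 2 := Real.log_nonneg (by norm_num)
    have habs : 0 ≤ |Real.log ε| := abs_nonneg _
    positivity
  have hlt : (s2 : ℝ) < s3 := by exact_mod_cast h23
  have h4 := hT0 s2 h2
  have h5 : 300 / L * Real.log (3 * ((s2 : ℝ) + 1)) + 100 * (|Real.log ε| + 3 * Real.log 2) / L =
      100 * ((3 * Real.log (3 * ((s2 : ℝ) + 1)) + |Real.log ε| + 3 * Real.log 2) / L) := by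
    field_simp; ring
  rw [h5] at h4
  have hw : 8 / 5 * (s2 : ℝ) ≤ s3 + 100 *
      ((3 * Real.log (3 * ((s2 : ℝ) + 1)) + |Real.log ε| + 3 * Real.log 2) / L) := by
    rcases hE with hE | ⟨a, f, ha1, haT, _, hf0, hf1, hf2, hE⟩
    · exact core_weak k η s2 s3 X τ φ 0 0 _ hk2 hk7 hη (Nat.cast_nonneg _) hlt.le hτ hφ hr0 h1
        (Or.inl hE) h3
    · exact core_weak k η s2 s3 X τ φ a f _ hk2 hk7 hη (Nat.cast_nonneg _) hlt.le hτ hφ hr0 h1
        (Or.inr ⟨Nat.cast_nonneg _, by exact_mod_cast haT, hf0, hf1, hf2, hE⟩) h3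
  have h6 : (3 * s2 : ℝ) ≤ 2 * s3 := by linarith
  exact_mod_cast h6

theorem ratio {α β c : ℝ} (hk : Const α β c) (ε : ℝ) (hε : 0 < ε) :
    ∃ T1 : ℕ, ∀ (x y : ℕ → ℝ) (F U V : ℕ → Bool), Run α β c x y F U V →
      (∀ n, U n = true → V n = true → False) →
      (∀ n, U n = true → ε * tht α β ^ n * (α * β) ^ n < y n ^ 3) →
      (∀ n, V n = true → ε * tht α β ^ n * (α * β) ^ n < x n ^ 3) →
      ∀ s1 s2 s3 : ℕ, T1 ≤ s2 → s1 ≤ s2 → s2 < s3 → (s1 = 0 ∨ V s1 = true) →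
        (∀ n, s1 ≤ n → n < s2 → U n = false) → U s2 = true → V s3 = true → 2 * s2 ≤ s3 := by
  obtain ⟨L, k, η, hL0, hL, hkL, hη, hk2, hk7⟩ := rat_params hk
  have hη0 : 0 < η := by rw [hη]; linarith
  obtain ⟨T0, hT0⟩ := rat_weak hk ε hε
  obtain ⟨T2, hT2⟩ := rat_small (300 / L) (100 * (|Real.log ε| + 3 * Real.log 2) / L) η
    (by positivity) hη0
  refine ⟨max (2 * T0) T2, fun x y F U V hrun hUV hU hV s1 s2 s3 hT h12 h23 hs1 hno hUs hVs => ?_⟩
  have h2 : T2 ≤ s2 := (le_max_right _ _).trans hT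
  have h20 : 2 * T0 ≤ s2 := (le_max_left _ _).trans hT
  have h32 : 3 * s1 ≤ 2 * s2 := by
    rcases hs1 with h | h
    · omega
    · by_cases h0 : T0 ≤ s1
      · have hne : s1 ≠ s2 := by
          rintro rfl
          exact hUV _ hUs h
        exact hT0 y x (fun n => !F n) V U hrun.swap hV hU s1 s2 h0 (by omega) h hUs
      · omega
  obtain ⟨τ, φ, X, hτ, hφ, h1, hE, h3⟩ := rat_data hk ε hε x y F U V hrun hU hV s2 s3 h23 hUs hVs
    L k η _ hL hkL hη rfl
  have hr0 : 0 ≤ (3 * Real.log (3 * ((s2 : ℝ) + 1)) + |Real.log ε| + 3 * Real.log 2) / L := by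
    have hlT : 0 ≤ Real.log (3 * ((s2 : ℝ) + 1)) :=
      Real.log_nonneg (by linarith [(Nat.cast_nonneg s2 : (0 : ℝ) ≤ s2)])
    have hl2 : 0 ≤ Real.log 2 := Real.log_nonneg (by norm_num)
    have habs : 0 ≤ |Real.log ε| := abs_nonneg _
    positivity
  have hlt : (s2 : ℝ) < s3 := by exact_mod_cast h23
  have h4 := hT2 s2 h2
  have h5 : 300 / L * Real.log (3 * ((s2 : ℝ) + 1)) + 100 * (|Real.log ε| + 3 * Real.log 2) / L =
      100 * ((3 * Real.log (3 * ((s2 : ℝ) + 1)) + |Real.log ε| + 3 * Real.log 2) / L) := by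
    field_simp; ring
  rw [h5] at h4
  have hw : (2 + η) * (s2 : ℝ) ≤ s3 + 100 *
      ((3 * Real.log (3 * ((s2 : ℝ) + 1)) + |Real.log ε| + 3 * Real.log 2) / L) := by
    rcases hE with hE | ⟨a, f, ha1, haT, hUa, hf0, hf1, hf2, hE⟩
    · exact core_strong k η s2 s3 X τ φ 0 0 _ hk2 hk7 hη (Nat.cast_nonneg _) hlt.le hτ hφ hr0 h1
        (Or.inl hE) h3
    · have ha : a ≤ s1 := by
        by_contra hcon
        have := hno (a - 1) (by omega) (by omega)
        rw [this] at hUa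
        exact absurd hUa (by decide)
      have ha3 : 3 * (a : ℝ) ≤ 2 * s2 := by
        have : 3 * a ≤ 2 * s2 := by omega
        exact_mod_cast this
      exact core_strong k η s2 s3 X τ φ a f _ hk2 hk7 hη (Nat.cast_nonneg _) hlt.le hτ hφ hr0 h1
        (Or.inr ⟨Nat.cast_nonneg _, ha3, hf0, hf1, hf2, hE⟩) h3
  have h6 : (2 * s2 : ℝ) ≤ s3 := by nlinarith
  exact_mod_cast h6

end Pool.Agent.Lib.MP_bdb4fe_an
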