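import Pool.Agent.Lib.MP_bdb4fe_an.JAC
import Pool.Agent.Lib.MP_bdb4fe_an.ERR
import Pool.Agent.Lib.MP_bdb4fe_an.CMP
import Pool.Agent.Lib.MP_bdb4fe_an.RAD
import Pool.Agent.Lib.MP_bdb4fe_an.DEG
import Pool.Agent.Lib.MP_bdb4fe_an.RAT

/-!
Module MLM: the main lemma (assembly).
-/

set_option autoImplicit false

namespace Pool.Agent.Lib.MP_bdb4fe_an

open Filter Topology Metric Set

/-- the recursion with the keep rule -/
noncomputable def st (α β c θ ε : ℝ) (F k : ℕ → Bool) : ℕ → ℝ × ℝ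
  | 0 => (2, 2)
  | n + 1 =>
    ((if F n then α else β) * (st α β c θ ε F k n).1 +
        (if (k n && decide (ε * θ ^ n * (α * β) ^ n < (st α β c θ ε F k n).2 ^ 3)) = true
          then c * (st α β c θ ε F k n).2 ^ 2 else 0),
      (if F n then β else α) * (st α β c θ ε F k n).2 +
        (if (!k n && decide (ε * θ ^ n * (α * β) ^ n < (st α β c θ ε F k n).1 ^ 3)) = true
          then c * (st α β c θ ε F k n).1 ^ 2 else 0))

theorem mlm_st_run (α β c θ ε : ℝ) (F k : ℕ → Bool) :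
    Run α β c (fun n => (st α β c θ ε F k n).1) (fun n => (st α β c θ ε F k n).2) F
      (fun n => k n && decide (ε * θ ^ n * (α * β) ^ n < (st α β c θ ε F k n).2 ^ 3))
      (fun n => !k n && decide (ε * θ ^ n * (α * β) ^ n < (st α β c θ ε F k n).1 ^ 3)) where
  x0 := rfl
  y0 := rfl
  hx := fun _ => rfl
  hy := fun _ => rfl

theorem mlm_maj_run {α β c : ℝ} {x y : ℕ → ℝ} {F U V : ℕ → Bool} (h : Run α β c x y F U V)
    (n : ℕ) : (maj α β c F U V 2 n).1 = x n ∧ (maj α β c F U V 2 n).2 = y n := by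
  induction n with
  | zero => exact ⟨h.x0.symm, h.y0.symm⟩
  | succ n ih =>
    refine ⟨?_, ?_⟩
    · rw [h.hx n, ← ih.1, ← ih.2]; rfl
    · rw [h.hy n, ← ih.1, ← ih.2]; rfl

theorem mlm_sum_geom (ε θ : ℝ) (hε : 0 ≤ ε) (h0 : 0 ≤ θ) (h1 : θ < 1) (n : ℕ) :
    ∑ i ∈ Finset.range n, ε * θ ^ i ≤ ε / (1 - θ) := by
  rw [← Finset.mul_sum, div_eq_mul_inv]
  apply mul_le_mul_of_nonneg_left _ hε
  have h := geom_sum_eq h1.ne n
  rw [h]
  have h2 : (θ ^ n - 1) / (θ - 1) = (1 - θ ^ n) / (1 - θ) := by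
    rw [← neg_sub 1 (θ ^ n), ← neg_sub 1 θ, neg_div_neg_eq]
  rw [h2, div_eq_mul_inv]
  have h3 : 0 < (1 - θ)⁻¹ := inv_pos.2 (by linarith)
  have h4 : 0 ≤ θ ^ n := pow_nonneg h0 n
  nlinarith

theorem main_lemma {α β c : ℝ} (hk : Const α β c) (A B p q : ℕ → ℂ)
    (hA : ∀ n, A n ≠ 0) (hB : ∀ n, B n ≠ 0) (hpq : ∀ n, p n = 0 ∨ q n = 0)
    (hAB : ∀ n, (‖A n‖ = α ∧ ‖B n‖ = β) ∨ (‖A n‖ = β ∧ ‖B n‖ = α))
    (hp : ∀ n, ‖p n‖ ≤ c) (hq : ∀ n, ‖q n‖ ≤ c) (R ε0 : ℝ) (hε0 : 0 < ε0) :
    ∃ (k : ℕ) (g : E ≃ E), 1 ≤ k ∧ IsAut g ∧ (∀ x : E, ‖x‖ ≤ R → ‖g x‖ ≤ 1 / 2) ∧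
      (∀ x : E, ‖x‖ ≤ 1 →
        ‖(up (fun n => qeq (A n) (B n) (p n) (q n) (hA n) (hB n) (hpq n)) k).symm (g x) - x‖
          ≤ ε0) ∧
      (∀ x : E, ‖x‖ ≤ 1 →
        ‖g.symm (up (fun n => qeq (A n) (B n) (p n) (q n) (hA n) (hB n) (hpq n)) k x) - x‖
          ≤ ε0) := by
  classical
  have hα0 := hk.hα0
  have hα1 := hk.hα1
  have hβ0 := hk.hβ0
  have hβα := hk.hβα
  have hc0 := hk.hc0
  have hcc := hk.hc
  have hβα1 : β < α := by nlinarith
  have hθ0 := tht_pos α β
  have hθ1 := tht_lt_one hk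
  set θ := tht α β with hθ
  set ε : ℝ := min (1 / 4) ε0 * (1 - θ) with hεdef
  have hmin : 0 < min (1 / 4 : ℝ) ε0 := lt_min (by norm_num) hε0
  have hε : 0 < ε := mul_pos hmin (by linarith)
  have hsum : ∀ n, ∑ i ∈ Finset.range n, ε * θ ^ i ≤ min (1 / 4) ε0 := by
    intro n
    refine (mlm_sum_geom ε θ hε.le hθ0.le hθ1 n).trans (le_of_eq ?_)
    rw [hεdef]
    field_simp [(by linarith : (1 : ℝ) - θ ≠ 0)]
  set F : ℕ → Bool := fun n => decide (‖A n‖ = α ∧ ‖B n‖ = β) with hF
  set kd : ℕ → Bool := fun n => decide (q n = 0) with hkd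
  set x : ℕ → ℝ := fun n => (st α β c θ ε F kd n).1 with hx
  set y : ℕ → ℝ := fun n => (st α β c θ ε F kd n).2 with hy
  set U : ℕ → Bool := fun n => kd n && decide (ε * θ ^ n * (α * β) ^ n < y n ^ 3) with hU
  set V : ℕ → Bool := fun n => !kd n && decide (ε * θ ^ n * (α * β) ^ n < x n ^ 3) with hV
  have hrun : Run α β c x y F U V := mlm_st_run α β c θ ε F kd
  have hUV : ∀ n, U n = true → V n = true → False := by
    intro n h1 h2
    simp only [hU, hV, Bool.and_eq_true, Bool.not_eq_true'] at h1 h2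
    rw [h1.1] at h2
    exact absurd h2.1 (by decide)
  have hUc : ∀ n, U n = true → ε * θ ^ n * (α * β) ^ n < y n ^ 3 := by
    intro n h1
    simp only [hU, Bool.and_eq_true, decide_eq_true_eq] at h1
    exact h1.2
  have hVc : ∀ n, V n = true → ε * θ ^ n * (α * β) ^ n < x n ^ 3 := by
    intro n h1
    simp only [hV, Bool.and_eq_true, decide_eq_true_eq] at h1
    exact h1.2
  obtain ⟨T1, hT1⟩ := ratio hk ε hε
  obtain ⟨C, hC0, hC⟩ := dg_linear U V hUV T1
    (hT1 x y F U V hrun hUV hUc hVc)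
    (hT1 y x (fun n => !F n) V U hrun.swap (fun n h1 h2 => hUV n h2 h1) hVc hUc)
  have hαc : α + c < 1 := by nlinarith
  obtain ⟨k, hk1, hkX, hkY⟩ := maj_small α β c hα0 hβ0 hβα1.le hc0 hαc F U V C hC (max R 0)
    (le_max_right _ _)
  have hpq' : ∀ n, (if U n then p n else 0) = 0 ∨ (if V n then q n else 0) = 0 := by
    intro n
    by_cases h1 : U n = true
    · right
      rw [if_neg]
      exact fun h2 => hUV n h1 h2
    · left
      rw [if_neg h1]
  set g : ℕ → (E ≃ E) := fun n => qeq (A n) (B n) (if U n then p n else 0)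
    (if V n then q n else 0) (hA n) (hB n) (hpq' n) with hg
  set f : ℕ → (E ≃ E) := fun n => qeq (A n) (B n) (p n) (q n) (hA n) (hB n) (hpq n) with hf
  have hnA : ∀ n, ‖A n‖ = if F n then α else β := by
    intro n
    rcases hAB n with h | h
    · have : F n = true := by simp [hF, h]
      rw [this]; simpa using h.1
    · have : F n = false := by
        simp only [hF, h.1, h.2, decide_eq_false_iff_not]
        intro h3
        linarith [h3.1]
      rw [this]; simpa using h.1
  have hnB : ∀ n, ‖B n‖ = if F n then β else α := by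
    intro n
    rcases hAB n with h | h
    · have : F n = true := by simp [hF, h]
      rw [this]; simpa using h.2
    · have : F n = false := by
        simp only [hF, h.1, h.2, decide_eq_false_iff_not]
        intro h3
        linarith [h3.1]
      rw [this]; simpa using h.2
  have hABn : ∀ n, ‖A n‖ * ‖B n‖ = α * β := by
    intro n
    rcases hAB n with h | h
    · rw [h.1, h.2]
    · rw [h.1, h.2, mul_comm]
  have hAge : ∀ n, β ≤ ‖A n‖ := by
    intro n
    rcases hAB n with h | h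
    · rw [h.1]; exact hβα1.le
    · rw [h.1]
  have hBge : ∀ n, β ≤ ‖B n‖ := by
    intro n
    rcases hAB n with h | h
    · rw [h.2]
    · rw [h.2]; exact hβα1.le
  have hup : ∀ (R : ℝ), 0 ≤ R → ∀ (n : ℕ) (z : E), ‖z‖ ≤ R →
      ‖(up g n z).1‖ ≤ (maj α β c F U V R n).1 ∧ ‖(up g n z).2‖ ≤ (maj α β c F U V R n).2 := by
    intro R hR n z hz
    refine maj_up α β c hα0.le hβ0.le hc0 F U V g A B (fun n => if U n then p n else 0)
      (fun n => if V n then q n else 0) (fun _ _ => rfl) hnA hnB ?_ ?_ R hR n z hz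
    · intro n
      by_cases h : U n = true
      · simp only [h, if_true]; exact hp n
      · simp [h]
    · intro n
      by_cases h : V n = true
      · simp only [h, if_true]; exact hq n
      · simp [h]
  have hautg : ∀ n, IsAut (g n) := fun n => isAut_qeq _ _ _ _ _ _ _
  have hautup : ∀ n, IsAut (up g n) := by
    intro n
    induction n with
    | zero => exact ⟨differentiable_id, differentiable_id⟩
    | succ n ih => exact ⟨(hautg n).1.comp ih.1, ih.2.comp (hautg n).2⟩
  have hJ : ∀ n, HasJ (up g n) ((α * β) ^ n) := by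
    intro n
    refine hasJ_up g (α * β) (fun m => ?_) n
    have := hasJ_qeq (A m) (B m) (if U m then p m else 0) (if V m then q m else 0) (hA m) (hB m)
      (hpq' m)
    rwa [hABn m] at this
  have hδ : ∀ n, 0 < (α * β) ^ n := fun n => pow_pos (mul_pos hα0 hβ0) n
  have hθn : ∀ n, 0 < θ ^ n := fun n => pow_pos hθ0 n
  have hεn : ∀ n, 0 < ε * θ ^ n := fun n => mul_pos hε (hθn n)
  have hε4 : ∀ n, ε * θ ^ n ≤ 1 / 4 := by
    intro n
    have h1 : ε * θ ^ n ≤ ∑ i ∈ Finset.range (n + 1), ε * θ ^ i := by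
      apply Finset.single_le_sum (f := fun i => ε * θ ^ i) (fun i _ => (hεn i).le)
      exact Finset.mem_range.2 (Nat.lt_succ_self n)
    exact h1.trans ((hsum (n + 1)).trans (min_le_left _ _))
  have hyn : ∀ (n : ℕ) (z : E), ‖z‖ ≤ 2 → ‖(up g n z).2‖ ≤ y n := by
    intro n z hz
    rw [← (mlm_maj_run hrun n).2]
    exact (hup 2 (by norm_num) n z hz).2
  have hxn : ∀ (n : ℕ) (z : E), ‖z‖ ≤ 2 → ‖(up g n z).1‖ ≤ x n := by
    intro n z hz
    rw [← (mlm_maj_run hrun n).1]
    exact (hup 2 (by norm_num) n z hz).1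
  have hy0 : ∀ n, 0 ≤ y n := fun n => (norm_nonneg _).trans (hyn n 0 (by simp))
  have hx0 : ∀ n, 0 ≤ x n := fun n => (norm_nonneg _).trans (hxn n 0 (by simp))
  -- the numerical estimate at a dropped step
  have hdrop : ∀ (n : ℕ) (s a : ℂ) (t : ℝ), 0 ≤ t → ‖s‖ ≤ c → β ≤ ‖a‖ →
      t ^ 3 ≤ ε * θ ^ n * (α * β) ^ n → 2 * ‖s / a‖ * t ^ 3 < ε * θ ^ n * (α * β) ^ n := by
    intro n s a t ht hs ha h3
    have h1 : ‖s / a‖ ≤ c / β := by
      rw [norm_div]
      exact div_le_div₀ hc0 hs hβ0 ha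
    have h2 : 2 * (c / β) < 1 := by
      rw [← mul_div_assoc, div_lt_one hβ0]
      nlinarith
    have h4 : 0 ≤ t ^ 3 := pow_nonneg ht 3
    have h5 : 0 < ε * θ ^ n * (α * β) ^ n := mul_pos (hεn n) (hδ n)
    have h6 : 2 * ‖s / a‖ * t ^ 3 ≤ 2 * (c / β) * t ^ 3 := by
      apply mul_le_mul_of_nonneg_right _ h4
      linarith
    have h7 : 2 * (c / β) * t ^ 3 ≤ 2 * (c / β) * (ε * θ ^ n * (α * β) ^ n) := by
      apply mul_le_mul_of_nonneg_left h3
      positivity
    have h8 : 2 * (c / β) * (ε * θ ^ n * (α * β) ^ n) < ε * θ ^ n * (α * β) ^ n := by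
      nlinarith
    linarith
  have hcases : ∀ n, (U n = true ∧ q n = 0) ∨ (V n = true ∧ p n = 0) ∨
      (U n = false ∧ V n = false ∧ q n = 0 ∧ y n ^ 3 ≤ ε * θ ^ n * (α * β) ^ n) ∨
      (U n = false ∧ V n = false ∧ p n = 0 ∧ x n ^ 3 ≤ ε * θ ^ n * (α * β) ^ n) := by
    intro n
    by_cases hq0 : q n = 0
    · have hkdn : kd n = true := by simp [hkd, hq0]
      have hVn : V n = false := by simp [hV, hkdn]
      by_cases hlt : ε * θ ^ n * (α * β) ^ n < y n ^ 3
      · left
        refine ⟨?_, hq0⟩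
        simp only [hU, hkdn, Bool.true_and, decide_eq_true_eq]
        exact hlt
      · right; right; left
        refine ⟨?_, hVn, hq0, not_lt.1 hlt⟩
        simp only [hU, hkdn, Bool.true_and, decide_eq_false_iff_not]
        exact hlt
    · have hkdn : kd n = false := by simp [hkd, hq0]
      have hp0 : p n = 0 := by
        rcases hpq n with h | h
        · exact h
        · exact absurd h hq0
      have hUn : U n = false := by simp [hU, hkdn]
      by_cases hlt : ε * θ ^ n * (α * β) ^ n < x n ^ 3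
      · right; left
        refine ⟨?_, hp0⟩
        simp only [hV, hkdn, Bool.not_false, Bool.true_and, decide_eq_true_eq]
        exact hlt
      · right; right; right
        refine ⟨hUn, ?_, hp0, not_lt.1 hlt⟩
        simp only [hV, hkdn, Bool.not_false, Bool.true_and, decide_eq_false_iff_not]
        exact hlt
  have hpp : ∀ n, (if U n then p n else 0) = p n ∨ (if U n then p n else 0) = 0 := by
    intro n; by_cases h : U n = true <;> simp [h]
  have hqq : ∀ n, (if V n then q n else 0) = q n ∨ (if V n then q n else 0) = 0 := by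
    intro n; by_cases h : V n = true <;> simp [h]
  -- pulled back deviations
  have key : ∀ (n : ℕ) (z : E), ‖z‖ ≤ 5 / 4 → ∀ (s t : ℂ),
      (s = (if U n then p n else 0) - p n ∧ t = (if V n then q n else 0) - q n ∨
        s = p n - (if U n then p n else 0) ∧ t = q n - (if V n then q n else 0)) →
      ‖(up g n).symm ((up g n z).1 + s / A n * (up g n z).2 ^ 2,
        (up g n z).2 + t / B n * (up g n z).1 ^ 2) - z‖ ≤ ε * θ ^ n := by
    intro n z hz s t hst
    have hid : s = 0 → t = 0 →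
        ‖(up g n).symm ((up g n z).1 + s / A n * (up g n z).2 ^ 2,
          (up g n z).2 + t / B n * (up g n z).1 ^ 2) - z‖ ≤ ε * θ ^ n := by
      intro hs ht
      rw [hs, ht]
      simp only [zero_div, zero_mul, add_zero, Prod.mk.eta, Equiv.symm_apply_apply, sub_self,
        norm_zero]
      exact (hεn n).le
    rcases hcases n with ⟨h1, h2⟩ | ⟨h1, h2⟩ | ⟨h1, h2, h3, h4⟩ | ⟨h1, h2, h3, h4⟩
    · apply hid
      · rcases hst with h | h <;> rw [h.1] <;> simp [h1]
      · rcases hst with h | h <;> rw [h.2] <;> simp [h2]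
    · apply hid
      · rcases hst with h | h <;> rw [h.1] <;> simp [h2]
      · rcases hst with h | h <;> rw [h.2] <;> simp [h1]
    · have ht : t = 0 := by rcases hst with h | h <;> rw [h.2] <;> simp [h3]
      have hs : ‖s‖ ≤ c := by
        rcases hst with h | h <;> rw [h.1] <;> simp [h1] <;> exact hp n
      rw [ht]
      simp only [zero_div, zero_mul, add_zero]
      exact err_upper (up g n) (hautup n) ((α * β) ^ n) (y n) (hδ n) (hJ n) (hyn n) (s / A n)
        (ε * θ ^ n) (hdrop n s (A n) (y n) (hy0 n) hs (hAge n) h4) (hε4 n) z hz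
    · have hs : s = 0 := by rcases hst with h | h <;> rw [h.1] <;> simp [h3]
      have ht : ‖t‖ ≤ c := by
        rcases hst with h | h <;> rw [h.2] <;> simp [h2] <;> exact hq n
      rw [hs]
      simp only [zero_div, zero_mul, add_zero]
      exact err_lower (up g n) (hautup n) ((α * β) ^ n) (x n) (hδ n) (hJ n) (hxn n) (t / B n)
        (ε * θ ^ n) (hdrop n t (B n) (x n) (hx0 n) ht (hBge n) h4) (hε4 n) z hz
  have hcomp := comp_err f g (fun n => ε * θ ^ n) (fun n => (hεn n).le)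
    (fun n => (hsum n).trans (min_le_left _ _))
    (by
      intro n z hz
      have h1 := dev (A n) (B n) (p n) (q n) (if U n then p n else 0) (if V n then q n else 0)
        (hA n) (hB n) (hpq n) (hpq' n) (hpp n) (hqq n) (up g n z)
      have h2 : (f n).symm (g n (up g n z)) = _ := h1
      rw [h2]
      exact key n z hz _ _ (Or.inl ⟨rfl, rfl⟩))
    (by
      intro n z hz
      have h1 := dev' (A n) (B n) (p n) (q n) (if U n then p n else 0) (if V n then q n else 0)
        (hA n) (hB n) (hpq n) (hpq' n) (hpp n) (hqq n) (up g n z)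
      have h2 : (g n).symm (f n (up g n z)) = _ := h1
      rw [h2]
      exact key n z hz _ _ (Or.inr ⟨rfl, rfl⟩))
  refine ⟨k, up g k, hk1, hautup k, ?_, ?_, ?_⟩
  · intro z hz
    have h1 := hup (max R 0) (le_max_right _ _) k z (hz.trans (le_max_left _ _))
    rw [Prod.norm_def]
    exact max_le (h1.1.trans hkX) (h1.2.trans hkY)
  · intro z hz
    exact (hcomp k z hz).1.trans ((hsum k).trans (min_le_right _ _))
  · intro z hz
    exact (hcomp k z hz).2.trans ((hsum k).trans (min_le_right _ _))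

end Pool.Agent.Lib.MP_bdb4fe_an
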