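import Pool.Agent.Lib.MP_bdb4fe_an.GLB
import Pool.Agent.Lib.MP_bdb4fe_an.MLM

/-!
Module FIN: final theorem (assembly).
-/

set_option autoImplicit false

namespace Pool.Agent.Lib.MP_bdb4fe_an

open Filter Topology Metric Set

theorem final_small {α β c : ℝ} (hk : Const α β c) (A B p q : ℕ → ℂ)
    (hA : ∀ n, A n ≠ 0) (hB : ∀ n, B n ≠ 0) (hpq : ∀ n, p n = 0 ∨ q n = 0)
    (hAB : ∀ n, (‖A n‖ = α ∧ ‖B n‖ = β) ∨ (‖A n‖ = β ∧ ‖B n‖ = α))
    (hp : ∀ n, ‖p n‖ ≤ c) (hq : ∀ n, ‖q n‖ ≤ c) :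
    ∃ φ ψ : E → E, Differentiable ℂ φ ∧
      DifferentiableOn ℂ ψ (basin (fun n => qeq (A n) (B n) (p n) (q n) (hA n) (hB n) (hpq n))) ∧
      Set.range φ = basin (fun n => qeq (A n) (B n) (p n) (q n) (hA n) (hB n) (hpq n)) ∧
      (∀ z, ψ (φ z) = z) ∧
      (∀ w ∈ basin (fun n => qeq (A n) (B n) (p n) (q n) (hA n) (hB n) (hpq n)),
        φ (ψ w) = w) := by
  have hα0 := hk.hα0
  have hα1 := hk.hα1
  have hβ0 := hk.hβ0
  have hβα := hk.hβα
  have hc0 := hk.hc0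
  have hcc := hk.hc
  have hβα1 : β < α := by nlinarith
  set f : ℕ → (E ≃ E) := fun n => qeq (A n) (B n) (p n) (q n) (hA n) (hB n) (hpq n) with hf
  have hfa : ∀ n, IsAut (f n) := fun n => isAut_qeq _ _ _ _ _ _ _
  obtain ⟨n, G, h0, hn, h1, h2, h3, h4⟩ := glue_choice f hfa (by
    intro m R ε hε
    exact main_lemma hk (fun n => A (m + n)) (fun n => B (m + n)) (fun n => p (m + n))
      (fun n => q (m + n)) (fun n => hA (m + n)) (fun n => hB (m + n)) (fun n => hpq (m + n))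
      (fun n => hAB (m + n)) (fun n => hp (m + n)) (fun n => hq (m + n)) R ε hε)
  refine glue_limit f hfa (α + c) (by nlinarith) ?_ n G h0 hn h1 h2 h3 h4
  intro n x hx
  have hx1 : ‖x.1‖ ≤ ‖x‖ := norm_fst_le x
  have hx2 : ‖x.2‖ ≤ ‖x‖ := norm_snd_le x
  have hAn : ‖A n‖ ≤ α := by
    rcases hAB n with h | h
    · exact h.1.le
    · rw [h.1]; exact hβα1.le
  have hBn : ‖B n‖ ≤ α := by
    rcases hAB n with h | h
    · rw [h.2]; exact hβα1.le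
    · exact h.2.le
  have key : ∀ a s u v : ℂ, ‖a‖ ≤ α → ‖s‖ ≤ c → ‖u‖ ≤ ‖x‖ → ‖v‖ ≤ ‖x‖ →
      ‖a * u + s * v ^ 2‖ ≤ (α + c) * ‖x‖ := by
    intro a s u v ha hs hu hv
    have h1 : ‖a * u + s * v ^ 2‖ ≤ ‖a‖ * ‖u‖ + ‖s‖ * ‖v‖ ^ 2 := by
      refine (norm_add_le _ _).trans ?_
      rw [norm_mul, norm_mul, norm_pow]
    have h2 : ‖a‖ * ‖u‖ ≤ α * ‖x‖ := mul_le_mul ha hu (norm_nonneg _) hα0.le
    have h3 : ‖v‖ ^ 2 ≤ ‖x‖ := by nlinarith [norm_nonneg v, norm_nonneg x]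
    have h4 : ‖s‖ * ‖v‖ ^ 2 ≤ c * ‖x‖ := mul_le_mul hs h3 (by positivity) hc0
    linarith
  change ‖(A n * x.1 + p n * x.2 ^ 2, B n * x.2 + q n * x.1 ^ 2)‖ ≤ (α + c) * ‖x‖
  rw [Prod.norm_def]
  exact max_le (key _ _ _ _ hAn (hp n) hx1 hx2) (key _ _ _ _ hBn (hq n) hx2 hx1)

/-- the basin of a sequence of self-maps of `ℂ²` -/
def Basin (f : ℕ → ℂ × ℂ → ℂ × ℂ) : Set (ℂ × ℂ) :=
  {z | ∀ x : ℕ → ℂ × ℂ, x 0 = z → (∀ n, x (n + 1) = f n (x n)) → Tendsto x atTop (𝓝 0)}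

/-- `Ω` is biholomorphic to `ℂ²` -/
def BihC2 (Ω : Set (ℂ × ℂ)) : Prop :=
  ∃ φ ψ : ℂ × ℂ → ℂ × ℂ, Differentiable ℂ φ ∧ DifferentiableOn ℂ ψ Ω ∧ Set.range φ = Ω ∧
    (∀ z, ψ (φ z) = z) ∧ (∀ w ∈ Ω, φ (ψ w) = w)

theorem final (α β K : ℝ) (hβ0 : 0 < β) (hβα : β ≤ α ^ 2) (hα0 : 0 < α) (hα1 : α < 1)
    (hβ2 : α ^ 7 < β ^ 2) (A B p q : ℕ → ℂ)
    (hAB : ∀ n, (‖A n‖ = α ∧ ‖B n‖ = β) ∨ (‖A n‖ = β ∧ ‖B n‖ = α))
    (hpq : ∀ n, p n = 0 ∨ q n = 0) (hp : ∀ n, ‖p n‖ ≤ K) (hq : ∀ n, ‖q n‖ ≤ K)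
    (f : ℕ → ℂ × ℂ → ℂ × ℂ)
    (hf : ∀ n z w, f n (z, w) = (A n * z + p n * w ^ 2, B n * w + q n * z ^ 2)) :
    BihC2 (Basin f) := by
  have hK : 0 ≤ K := (norm_nonneg _).trans (hp 0)
  set c : ℝ := β * (1 - α) / 9 with hc
  have hc0 : 0 < c := by
    rw [hc]; apply div_pos _ (by norm_num); exact mul_pos hβ0 (by linarith)
  have hk : Const α β c := ⟨hα0, hα1, hβ0, hβα, hβ2, hc0.le, by rw [hc]; linarith⟩
  have hA : ∀ n, A n ≠ 0 := by
    intro n h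
    rcases hAB n with h1 | h1 <;> rw [h, norm_zero] at h1 <;> linarith [h1.1]
  have hB : ∀ n, B n ≠ 0 := by
    intro n h
    rcases hAB n with h1 | h1 <;> rw [h, norm_zero] at h1 <;> linarith [h1.2]
  set d : ℝ := c / (K + 1) with hd
  have hd0 : 0 < d := div_pos hc0 (by linarith)
  have hdK : d * K ≤ c := by
    rw [hd, div_mul_eq_mul_div, div_le_iff₀ (by linarith)]
    nlinarith
  have hdC : (d : ℂ) ≠ 0 := by exact_mod_cast hd0.ne'
  have hpq' : ∀ n, (d : ℂ) * p n = 0 ∨ (d : ℂ) * q n = 0 := by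
    intro n
    rcases hpq n with h | h
    · left; rw [h, mul_zero]
    · right; rw [h, mul_zero]
  have hnd : ‖(d : ℂ)‖ = d := by
    rw [Complex.norm_real, Real.norm_eq_abs, abs_of_pos hd0]
  have hp' : ∀ n, ‖(d : ℂ) * p n‖ ≤ c := by
    intro n
    rw [norm_mul, hnd]
    exact (mul_le_mul_of_nonneg_left (hp n) hd0.le).trans hdK
  have hq' : ∀ n, ‖(d : ℂ) * q n‖ ≤ c := by
    intro n
    rw [norm_mul, hnd]
    exact (mul_le_mul_of_nonneg_left (hq n) hd0.le).trans hdK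
  obtain ⟨φ, ψ, h1, h2, h3, h4, h5⟩ := final_small hk A B (fun n => (d : ℂ) * p n)
    (fun n => (d : ℂ) * q n) hA hB hpq' hAB hp' hq'
  set g : ℕ → (E ≃ E) := fun n => qeq (A n) (B n) ((d : ℂ) * p n) ((d : ℂ) * q n) (hA n) (hB n)
    (hpq' n) with hg
  have hconj : ∀ n (x : E), f n ((d : ℂ) • x) = (d : ℂ) • g n x := by
    intro n x
    have e1 : (d : ℂ) • x = (((d : ℂ) * x.1, (d : ℂ) * x.2) : ℂ × ℂ) := by
      ext <;> simp
    have e2 : g n x = qmap (A n) (B n) ((d : ℂ) * p n) ((d : ℂ) * q n) x := rfl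
    rw [e1, hf, e2]
    ext
    · simp only [qmap, Prod.smul_mk, smul_eq_mul]; ring
    · simp only [qmap, Prod.smul_mk, smul_eq_mul]; ring
  -- the basin of f is d times the basin of g
  have hbas : ∀ x : E, (d : ℂ) • x ∈ Basin f ↔ x ∈ basin g := by
    intro x
    have hseq : ∀ u : ℕ → ℂ × ℂ, u 0 = (d : ℂ) • x → (∀ n, u (n + 1) = f n (u n)) →
        ∀ n, u n = (d : ℂ) • up g n x := by
      intro u h0 hs n
      induction n with
      | zero => exact h0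
      | succ n ih => rw [hs n, ih, hconj]; rfl
    constructor
    · intro h
      have h6 := h (fun n => (d : ℂ) • up g n x) rfl (fun n => by
        show (d : ℂ) • g n (up g n x) = f n ((d : ℂ) • up g n x)
        rw [hconj])
      have h7 : Tendsto (fun n => (d : ℂ)⁻¹ • ((d : ℂ) • up g n x)) atTop
          (𝓝 ((d : ℂ)⁻¹ • (0 : E))) := h6.const_smul _
      simp only [smul_zero] at h7
      refine h7.congr (fun n => ?_)
      rw [smul_smul, inv_mul_cancel₀ hdC, one_smul]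
    · intro h u h0 hs
      have h6 := hseq u h0 hs
      have h7 : Tendsto (fun n => (d : ℂ) • up g n x) atTop (𝓝 ((d : ℂ) • (0 : E))) :=
        Tendsto.const_smul (show Tendsto (fun n => up g n x) atTop (𝓝 0) from h) _
      rw [smul_zero] at h7
      exact h7.congr (fun n => (h6 n).symm)
  have hbas' : ∀ w : E, w ∈ Basin f ↔ (d : ℂ)⁻¹ • w ∈ basin g := by
    intro w
    rw [← hbas, smul_smul, mul_inv_cancel₀ hdC, one_smul]
  refine ⟨fun z => (d : ℂ) • φ z, fun w => ψ ((d : ℂ)⁻¹ • w), ?_, ?_, ?_, ?_, ?_⟩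
  · exact h1.const_smul (d : ℂ)
  · intro w hw
    have h6 : (d : ℂ)⁻¹ • w ∈ basin g := (hbas' w).1 hw
    have h7 : DifferentiableWithinAt ℂ (fun w : E => (d : ℂ)⁻¹ • w) (Basin f) w :=
      (differentiable_id.const_smul ((d : ℂ)⁻¹)).differentiableAt.differentiableWithinAt
    exact DifferentiableWithinAt.comp w (h2 _ h6) h7 (fun w hw => (hbas' w).1 hw)
  · ext w
    constructor
    · rintro ⟨z, rfl⟩
      have : φ z ∈ basin g := by rw [← h3]; exact ⟨z, rfl⟩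
      exact (hbas _).2 this
    · intro hw
      have h6 : (d : ℂ)⁻¹ • w ∈ basin g := (hbas' w).1 hw
      rw [← h3] at h6
      obtain ⟨z, hz⟩ := h6
      refine ⟨z, ?_⟩
      show (d : ℂ) • φ z = w
      rw [hz, smul_smul, mul_inv_cancel₀ hdC, one_smul]
  · intro z
    show ψ ((d : ℂ)⁻¹ • ((d : ℂ) • φ z)) = z
    rw [smul_smul, inv_mul_cancel₀ hdC, one_smul, h4]
  · intro w hw
    show (d : ℂ) • φ (ψ ((d : ℂ)⁻¹ • w)) = w
    rw [h5 _ ((hbas' w).1 hw), smul_smul, mul_inv_cancel₀ hdC, one_smul]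

theorem pair (f : ℕ → ℂ × ℂ → ℂ × ℂ)
    (hf : ∀ n, f n = (fun x => (1 / 2 * x.1 + x.2 ^ 2, 1 / 9 * x.2)) ∨
      f n = (fun x => (1 / 9 * x.1, 1 / 2 * x.2 + x.1 ^ 2))) :
    BihC2 (Basin f) := by
  classical
  have hn2 : ‖(1 / 2 : ℂ)‖ = 1 / 2 := by
    rw [norm_div]; simp
  have hn9 : ‖(1 / 9 : ℂ)‖ = 1 / 9 := by
    rw [norm_div]; simp
  set P : ℕ → Prop := fun n => f n = (fun x => (1 / 2 * x.1 + x.2 ^ 2, 1 / 9 * x.2)) with hP
  refine final (1 / 2) (1 / 9) 1 (by norm_num) (by norm_num) (by norm_num) (by norm_num)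
    (by norm_num) (fun n => if P n then 1 / 2 else 1 / 9) (fun n => if P n then 1 / 9 else 1 / 2)
    (fun n => if P n then 1 else 0) (fun n => if P n then 0 else 1) ?_ ?_ ?_ ?_ f ?_
  · intro n
    by_cases h : P n
    · left; simp only [h, if_true]; exact ⟨hn2, hn9⟩
    · right; simp only [h, if_false]; exact ⟨hn9, hn2⟩
  · intro n
    by_cases h : P n
    · right; simp [h]
    · left; simp [h]
  · intro n
    by_cases h : P n <;> simp [h]
  · intro n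
    by_cases h : P n <;> simp [h]
  · intro n z w
    by_cases h : P n
    · simp only [h, if_true]
      have h' : f n = (fun x => (1 / 2 * x.1 + x.2 ^ 2, 1 / 9 * x.2)) := h
      rw [h']
      simp
    · simp only [h, if_false]
      rcases hf n with h' | h'
      · exact absurd h' h
      · rw [h']; simp

end Pool.Agent.Lib.MP_bdb4fe_an
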