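import Pool.Agent.Lib.MP_bdb4fe_an.Defs

/-!
Module GLA. Choice of the levels and automorphisms (uniform continuity on compact sets and a
recursion).
-/

set_option autoImplicit false

namespace Pool.Agent.Lib.MP_bdb4fe_an

open Filter Topology Metric Set

theorem up_add (f : ℕ → (E ≃ E)) (m k : ℕ) :
    up f (m + k) = (up f m).trans (up (fun j => f (m + j)) k) := by
  induction k with
  | zero => rfl
  | succ k ih =>
    show (up f (m + k)).trans (f (m + k)) = _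
    rw [ih]
    rfl

theorem GLA_trans {a b : E ≃ E} (ha : IsAut a) (hb : IsAut b) : IsAut (a.trans b) := by
  refine ⟨?_, ?_⟩
  · have h : ((a.trans b : E ≃ E) : E → E) = b ∘ a := rfl
    rw [h]
    exact hb.1.comp ha.1
  · have h : (((a.trans b).symm : E ≃ E) : E → E) = a.symm ∘ b.symm := rfl
    rw [h]
    exact ha.2.comp hb.2

theorem GLA_refl : IsAut (Equiv.refl E) := by
  refine ⟨?_, ?_⟩
  · have h : ((Equiv.refl E : E ≃ E) : E → E) = fun x => x := rfl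
    rw [h]
    exact differentiable_id
  · have h : (((Equiv.refl E).symm : E ≃ E) : E → E) = fun x => x := rfl
    rw [h]
    exact differentiable_id

theorem isAut_up (f : ℕ → (E ≃ E)) (hf : ∀ n, IsAut (f n)) (n : ℕ) : IsAut (up f n) := by
  induction n with
  | zero => exact GLA_refl
  | succ n ih => exact GLA_trans ih (hf n)

theorem GLA_unif (A : E → E) (hA : Continuous A) (η : ℝ) (hη : 0 < η) :
    ∃ δ : ℝ, 0 < δ ∧ ∀ u v : E, ‖u‖ ≤ 1 → ‖v - u‖ ≤ δ → ‖A v - A u‖ ≤ η := by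
  have hK : IsCompact (closedBall (0 : E) 2) := isCompact_closedBall 0 2
  have hu := hK.uniformContinuousOn_of_continuous hA.continuousOn
  rw [Metric.uniformContinuousOn_iff] at hu
  obtain ⟨δ, hδ, h⟩ := hu η hη
  refine ⟨min (δ / 2) 1, by positivity, fun u v hu1 hv => ?_⟩
  have h1 : ‖v - u‖ ≤ δ / 2 := hv.trans (min_le_left _ _)
  have h2 : ‖v - u‖ ≤ 1 := hv.trans (min_le_right _ _)
  have h3 : ‖v‖ ≤ 2 := by
    have : v = (v - u) + u := by abel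
    rw [this]
    exact (norm_add_le _ _).trans (by linarith)
  have h4 := h v (by rw [mem_closedBall, dist_zero_right]; exact h3) u
    (by rw [mem_closedBall, dist_zero_right]; linarith) (by rw [dist_eq_norm]; linarith)
  rw [dist_eq_norm] at h4
  exact h4.le

theorem GLA_unif_list (A : ℕ → E → E) (hA : ∀ i, Continuous (A i)) (η : ℝ) (hη : 0 < η) (N : ℕ) :
    ∃ δ : ℝ, 0 < δ ∧ ∀ i ≤ N, ∀ u v : E, ‖u‖ ≤ 1 → ‖v - u‖ ≤ δ → ‖A i v - A i u‖ ≤ η := by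
  induction N with
  | zero =>
    obtain ⟨δ, hδ, h⟩ := GLA_unif (A 0) (hA 0) η hη
    refine ⟨δ, hδ, fun i hi => ?_⟩
    have : i = 0 := by omega
    subst this
    exact h
  | succ N ih =>
    obtain ⟨δ, hδ, h⟩ := ih
    obtain ⟨δ', hδ', h'⟩ := GLA_unif (A (N + 1)) (hA (N + 1)) η hη
    refine ⟨min δ δ', lt_min hδ hδ', fun i hi u v hu hv => ?_⟩
    rcases Nat.lt_or_ge i (N + 1) with hlt | hge
    · exact h i (by omega) u v hu (hv.trans (min_le_left _ _))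
    · have : i = N + 1 := by omega
      subst this
      exact h' u v hu (hv.trans (min_le_right _ _))

theorem GLA_bdd (G : E → E) (hG : Continuous G) (r : ℝ) :
    ∃ R : ℝ, ∀ x : E, ‖x‖ ≤ r → ‖G x‖ ≤ R := by
  obtain ⟨R, hR⟩ := (isCompact_closedBall (0 : E) r).exists_bound_of_continuousOn hG.continuousOn
  exact ⟨R, fun x hx => hR x (by rw [mem_closedBall, dist_zero_right]; exact hx)⟩

theorem GLA_step (f : ℕ → (E ≃ E)) (hf : ∀ n, IsAut (f n))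
    (ML : ∀ (m : ℕ) (R ε : ℝ), 0 < ε → ∃ (k : ℕ) (g : E ≃ E), 1 ≤ k ∧ IsAut g ∧
      (∀ x : E, ‖x‖ ≤ R → ‖g x‖ ≤ 1 / 2) ∧
      (∀ x : E, ‖x‖ ≤ 1 → ‖(up (fun j => f (m + j)) k).symm (g x) - x‖ ≤ ε) ∧
      (∀ x : E, ‖x‖ ≤ 1 → ‖g.symm (up (fun j => f (m + j)) k x) - x‖ ≤ ε))
    (m : ℕ) (s : ℕ × (E ≃ E)) (hG : IsAut s.2) (h : ∀ x : E, ‖x‖ ≤ (m : ℝ) → ‖s.2 x‖ ≤ 1 / 2) :
    ∃ s' : ℕ × (E ≃ E), s.1 < s'.1 ∧ IsAut s'.2 ∧
      (∀ x : E, ‖x‖ ≤ ((m + 1 : ℕ) : ℝ) → ‖s'.2 x‖ ≤ 1 / 2) ∧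
      (∀ i ≤ s.1, ∀ x : E, ‖x‖ ≤ (m : ℝ) →
        ‖up f i ((up f s'.1).symm (s'.2 x)) - up f i ((up f s.1).symm (s.2 x))‖
          ≤ (1 / 2) ^ (m + 2)) ∧
      (∀ y : E, ‖up f s.1 y‖ ≤ 1 →
        ‖s'.2.symm (up f s'.1 y) - s.2.symm (up f s.1 y)‖ ≤ (1 / 2) ^ (m + 2)) := by
  obtain ⟨n, G⟩ := s
  simp only at hG h ⊢
  obtain ⟨R, hR⟩ := GLA_bdd G hG.1.continuous ((m + 1 : ℕ) : ℝ)
  have hη : (0 : ℝ) < (1 / 2) ^ (m + 2) := by positivity
  obtain ⟨δ1, hδ1, hA⟩ := GLA_unif_list (fun i x => up f i ((up f n).symm x))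
    (fun i => (isAut_up f hf i).1.continuous.comp (isAut_up f hf n).2.continuous) _ hη n
  obtain ⟨δ2, hδ2, hB⟩ := GLA_unif (fun x => G.symm x) hG.2.continuous _ hη
  obtain ⟨k, g, hk, hg, g1, g2, g3⟩ := ML n R (min δ1 δ2) (lt_min hδ1 hδ2)
  refine ⟨(n + k, G.trans g), by show n < n + k; omega, GLA_trans hG hg, ?_, ?_, ?_⟩
  · intro x hx
    exact g1 (G x) (hR x hx)
  · intro i hi x hx
    have hu : ‖G x‖ ≤ 1 := (h x hx).trans (by norm_num)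
    have e1 : (up f (n + k)).symm ((G.trans g) x)
        = (up f n).symm ((up (fun j => f (n + j)) k).symm (g (G x))) := by
      rw [up_add]
      rfl
    show ‖up f i ((up f (n + k)).symm ((G.trans g) x)) - _‖ ≤ _
    rw [e1]
    exact hA i hi (G x) _ hu ((g2 (G x) hu).trans (min_le_left _ _))
  · intro y hy
    have e1 : (G.trans g).symm (up f (n + k) y)
        = G.symm (g.symm (up (fun j => f (n + j)) k (up f n y))) := by
      rw [up_add]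
      rfl
    show ‖(G.trans g).symm (up f (n + k) y) - _‖ ≤ _
    rw [e1]
    exact hB (up f n y) _ hy ((g3 (up f n y) hy).trans (min_le_right _ _))

theorem glue_choice (f : ℕ → (E ≃ E)) (hf : ∀ n, IsAut (f n))
    (ML : ∀ (m : ℕ) (R ε : ℝ), 0 < ε → ∃ (k : ℕ) (g : E ≃ E), 1 ≤ k ∧ IsAut g ∧
      (∀ x : E, ‖x‖ ≤ R → ‖g x‖ ≤ 1 / 2) ∧
      (∀ x : E, ‖x‖ ≤ 1 → ‖(up (fun j => f (m + j)) k).symm (g x) - x‖ ≤ ε) ∧
      (∀ x : E, ‖x‖ ≤ 1 → ‖g.symm (up (fun j => f (m + j)) k x) - x‖ ≤ ε)) :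
    ∃ (n : ℕ → ℕ) (G : ℕ → (E ≃ E)), n 0 = 0 ∧ StrictMono n ∧ (∀ m, IsAut (G m)) ∧
      (∀ (m : ℕ) (x : E), ‖x‖ ≤ m → ‖G m x‖ ≤ 1 / 2) ∧
      (∀ (m i : ℕ), i ≤ m → ∀ x : E, ‖x‖ ≤ m →
        ‖up f (n i) ((up f (n (m + 1))).symm (G (m + 1) x)) -
          up f (n i) ((up f (n m)).symm (G m x))‖ ≤ (1 / 2) ^ (m + 2)) ∧
      (∀ (m : ℕ) (y : E), ‖up f (n m) y‖ ≤ 1 →
        ‖(G (m + 1)).symm (up f (n (m + 1)) y) - (G m).symm (up f (n m) y)‖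
          ≤ (1 / 2) ^ (m + 2)) := by
  let S : ℕ → Type := fun m => {s : ℕ × (E ≃ E) // IsAut s.2 ∧
    ∀ x : E, ‖x‖ ≤ (m : ℝ) → ‖s.2 x‖ ≤ 1 / 2}
  have hstep : ∀ (m : ℕ) (s : S m), ∃ s' : S (m + 1), s.1.1 < s'.1.1 ∧
      (∀ i ≤ s.1.1, ∀ x : E, ‖x‖ ≤ (m : ℝ) →
        ‖up f i ((up f s'.1.1).symm (s'.1.2 x)) - up f i ((up f s.1.1).symm (s.1.2 x))‖
          ≤ (1 / 2) ^ (m + 2)) ∧
      (∀ y : E, ‖up f s.1.1 y‖ ≤ 1 →
        ‖s'.1.2.symm (up f s'.1.1 y) - s.1.2.symm (up f s.1.1 y)‖ ≤ (1 / 2) ^ (m + 2)) := by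
    intro m s
    obtain ⟨s', a1, a2, a3, a4, a5⟩ := GLA_step f hf ML m s.1 s.2.1 s.2.2
    exact ⟨⟨s', a2, a3⟩, a1, a4, a5⟩
  choose next hnext using hstep
  have hs0 : ∃ s : S 0, s.1.1 = 0 := ⟨⟨(0, Equiv.refl E), GLA_refl, fun x hx => by
    have hx0 : ‖x‖ ≤ 0 := by simpa using hx
    have : x = 0 := norm_le_zero_iff.1 hx0
    subst this
    simp⟩, rfl⟩
  obtain ⟨s1, hs1⟩ := hs0
  let q : ∀ m, S m := fun m => Nat.rec s1 next m
  have hq : ∀ m, q (m + 1) = next m (q m) := fun m => rfl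
  have hmono : StrictMono (fun m => (q m).1.1) := by
    apply strictMono_nat_of_lt_succ
    intro m
    have := (hnext m (q m)).1
    rw [← hq m] at this
    exact this
  refine ⟨fun m => (q m).1.1, fun m => (q m).1.2, hs1, hmono, fun m => (q m).2.1,
    fun m => (q m).2.2, ?_, ?_⟩
  · intro m i hi x hx
    have := (hnext m (q m)).2.1 (q i).1.1 (hmono.monotone hi) x hx
    rw [← hq m] at this
    exact this
  · intro m y hy
    have := (hnext m (q m)).2.2 y hy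
    rw [← hq m] at this
    exact this

end Pool.Agent.Lib.MP_bdb4fe_an
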