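import Pool.Agent.Lib.MP_bdb4fe_an.Defs

/-!
Module HOL. Locally uniform limits of holomorphic maps of `ℂ²` are holomorphic.
-/

set_option autoImplicit false

namespace Pool.Agent.Lib.MP_bdb4fe_an

open Filter Topology Metric Set

theorem hol_bound (g : E → E) (hg : Differentiable ℂ g) (x : E) (r η : ℝ) (hr : 0 < r)
    (hη : 0 ≤ η) (hb : ∀ z, dist z x ≤ r → ‖g z‖ ≤ η) : ‖fderiv ℂ g x‖ ≤ η / r := by
  refine ContinuousLinearMap.opNorm_le_bound _ (by positivity) (fun v => ?_)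
  by_cases hv : v = 0
  · subst hv
    simp
  have hv0 : (0 : ℝ) < ‖v‖ := norm_pos_iff.2 hv
  have hcn : ‖((‖v‖ : ℝ) : ℂ)‖ = ‖v‖ := by
    rw [Complex.norm_real, Real.norm_of_nonneg hv0.le]
  have hc0 : ((‖v‖ : ℝ) : ℂ) ≠ 0 := by
    rw [← norm_pos_iff, hcn]
    exact hv0
  set w : E := (((‖v‖ : ℝ) : ℂ)⁻¹) • v with hw
  have hwn : ‖w‖ = 1 := by
    rw [hw, norm_smul, norm_inv, hcn]
    exact inv_mul_cancel₀ hv0.ne'
  have hvw : v = ((‖v‖ : ℝ) : ℂ) • w := by
    rw [hw, smul_smul, mul_inv_cancel₀ hc0, one_smul]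
  have hline : ∀ ζ : ℂ, HasDerivAt (fun ζ : ℂ => x + ζ • w) w ζ := by
    intro ζ
    have h1 := (hasDerivAt_id ζ).smul_const w
    rw [one_smul] at h1
    exact h1.const_add x
  have hcomp : ∀ ζ : ℂ, HasDerivAt (fun ζ : ℂ => g (x + ζ • w)) (fderiv ℂ g (x + ζ • w) w) ζ := by
    intro ζ
    exact (hg (x + ζ • w)).hasFDerivAt.comp_hasDerivAt ζ (hline ζ)
  have hdiff : Differentiable ℂ (fun ζ : ℂ => g (x + ζ • w)) := fun ζ => (hcomp ζ).differentiableAt
  have h0 : deriv (fun ζ : ℂ => g (x + ζ • w)) 0 = fderiv ℂ g x w := by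
    rw [(hcomp 0).deriv, zero_smul, add_zero]
  have hle : ‖deriv (fun ζ : ℂ => g (x + ζ • w)) 0‖ ≤ η / r := by
    apply Complex.norm_deriv_le_of_forall_mem_sphere_norm_le hr hdiff.diffContOnCl
    intro z hz
    apply hb
    rw [dist_eq_norm, add_sub_cancel_left, norm_smul, hwn, mul_one]
    rw [mem_sphere_zero_iff_norm] at hz
    exact hz.le
  rw [h0] at hle
  have h2 : fderiv ℂ g x v = ((‖v‖ : ℝ) : ℂ) • fderiv ℂ g x w := by
    rw [← (fderiv ℂ g x).map_smul, ← hvw]
  rw [h2, norm_smul, hcn, mul_comm]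
  exact mul_le_mul_of_nonneg_right hle hv0.le

theorem hol_limit (U : Set E) (hU : IsOpen U) (F : ℕ → E → E) (f : E → E)
    (hF : ∀ n, Differentiable ℂ (F n)) (h : TendstoLocallyUniformlyOn F f atTop U) :
    DifferentiableOn ℂ f U := by
  intro x hx
  obtain ⟨r0, hr0, hball⟩ := Metric.isOpen_iff.1 hU x hx
  set r : ℝ := r0 / 4 with hr
  have hrpos : 0 < r := by positivity
  have hsub : closedBall x (2 * r) ⊆ U := by
    intro z hz
    apply hball
    rw [mem_closedBall] at hz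
    rw [mem_ball]
    linarith
  have hu : TendstoUniformlyOn F f atTop (closedBall x (2 * r)) :=
    (tendstoLocallyUniformlyOn_iff_forall_isCompact hU).1 h _ hsub (isCompact_closedBall x (2 * r))
  have hc := hu.uniformCauchySeqOn
  rw [Metric.uniformCauchySeqOn_iff] at hc
  have hc' : UniformCauchySeqOn (fun n => fderiv ℂ (F n)) atTop (ball x r) := by
    rw [Metric.uniformCauchySeqOn_iff]
    intro ε hε
    obtain ⟨N, hN⟩ := hc (ε * r / 2) (by positivity)
    refine ⟨N, fun m hm n hn z hz => ?_⟩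
    have h1 : fderiv ℂ (F m - F n) z = fderiv ℂ (F m) z - fderiv ℂ (F n) z :=
      fderiv_sub (hF m z) (hF n z)
    have h2 : ‖fderiv ℂ (F m - F n) z‖ ≤ (ε * r / 2) / r := by
      apply hol_bound _ ((hF m).sub (hF n)) z r _ hrpos (by positivity)
      intro y hy
      rw [Pi.sub_apply, ← dist_eq_norm]
      refine (hN m hm n hn y ?_).le
      rw [mem_closedBall]
      rw [mem_ball] at hz
      have := dist_triangle y z x
      linarith
    rw [dist_eq_norm, ← h1]
    refine lt_of_le_of_lt h2 ?_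
    rw [div_lt_iff₀ hrpos]
    nlinarith
  have hlim : ∀ z, z ∈ ball x r → ∃ L : E →L[ℂ] E, Tendsto (fun n => fderiv ℂ (F n) z) atTop (𝓝 L) :=
    fun z hz => cauchySeq_tendsto_of_complete (hc'.cauchySeq hz)
  choose! L hL using hlim
  have hun : TendstoUniformlyOn (fun n => fderiv ℂ (F n)) L atTop (ball x r) :=
    hc'.tendstoUniformlyOn_of_tendsto hL
  have hfd : HasFDerivAt f (L x) x := by
    refine hasFDerivAt_of_tendstoUniformlyOn (f := F) (f' := fun n => fderiv ℂ (F n)) (g' := L)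
      isOpen_ball hun (fun n z _ => (hF n z).hasFDerivAt) (fun z hz => ?_) (mem_ball_self hrpos)
    apply hu.tendsto_at
    rw [mem_closedBall]
    rw [mem_ball] at hz
    linarith
  exact hfd.differentiableAt.differentiableWithinAt

end Pool.Agent.Lib.MP_bdb4fe_an
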