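import Pool.Agent.Lib.MP_bdb4fe_an.GLA
import Pool.Agent.Lib.MP_bdb4fe_an.HOL

/-!
Module GLB. The limit of the automorphisms `Ψ m = (up f (n m)).symm ∘ G m` of module GLA is
a biholomorphic map of `ℂ²` onto the basin.
-/

set_option autoImplicit false

namespace Pool.Agent.Lib.MP_bdb4fe_an

open Filter Topology Metric Set

theorem GLB_shift (a : ℕ → E) (j : ℕ) (h : ∀ m, j ≤ m → ‖a (m + 1) - a m‖ ≤ (1 / 2) ^ (m + 2)) :
    ∀ k, dist (a (j + k)) (a (j + (k + 1))) ≤ (1 / 2) ^ (j + 2) * (1 / 2) ^ k := by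
  intro k
  rw [dist_comm, dist_eq_norm, ← pow_add]
  have := h (j + k) (by omega)
  have e : j + 2 + k = j + k + 2 := by omega
  rw [e]
  exact this

theorem GLB_lim (a : ℕ → E) (j : ℕ) (h : ∀ m, j ≤ m → ‖a (m + 1) - a m‖ ≤ (1 / 2) ^ (m + 2)) :
    ∃ l : E, Tendsto a atTop (𝓝 l) := by
  have h1 : CauchySeq (fun k => a (j + k)) :=
    cauchySeq_of_le_geometric (1 / 2) ((1 / 2) ^ (j + 2)) (by norm_num) (GLB_shift a j h)
  obtain ⟨l, hl⟩ := cauchySeq_tendsto_of_complete h1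
  refine ⟨l, ?_⟩
  rw [← tendsto_add_atTop_iff_nat j]
  refine hl.congr (fun k => ?_)
  rw [add_comm]

theorem GLB_bound (a : ℕ → E) (j : ℕ) (h : ∀ m, j ≤ m → ‖a (m + 1) - a m‖ ≤ (1 / 2) ^ (m + 2))
    (l : E) (hl : Tendsto a atTop (𝓝 l)) : ∀ m, j ≤ m → ‖a m - l‖ ≤ (1 / 2) ^ (m + 1) := by
  intro m hm
  obtain ⟨k, rfl⟩ := Nat.exists_eq_add_of_le hm
  have hl' : Tendsto (fun k => a (j + k)) atTop (𝓝 l) := by
    have := (tendsto_add_atTop_iff_nat j).2 hl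
    refine this.congr (fun k => ?_)
    rw [add_comm]
  have := dist_le_of_le_geometric_of_tendsto (1 / 2) ((1 / 2) ^ (j + 2)) (by norm_num)
    (GLB_shift a j h) hl' k
  rw [dist_eq_norm] at this
  refine this.trans (le_of_eq ?_)
  rw [← pow_add]
  have e : j + 2 + k = (j + k + 1) + 1 := by omega
  rw [e, pow_succ]
  norm_num

theorem GLB_contr (f : ℕ → (E ≃ E)) (ρ : ℝ) (hρ0 : 0 ≤ ρ) (hρ : ρ < 1)
    (hc : ∀ (n : ℕ) (x : E), ‖x‖ ≤ 1 → ‖f n x‖ ≤ ρ * ‖x‖) (a : ℕ) (y : E)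
    (hy : ‖up f a y‖ ≤ 1) (b : ℕ) : ‖up f (a + b) y‖ ≤ ρ ^ b := by
  induction b with
  | zero => simpa using hy
  | succ b ih =>
    have h1 : up f (a + (b + 1)) y = f (a + b) (up f (a + b) y) := rfl
    rw [h1]
    have h2 : ρ ^ b ≤ 1 := pow_le_one₀ hρ0 hρ.le
    refine (hc (a + b) _ (ih.trans h2)).trans ?_
    rw [pow_succ, mul_comm (ρ ^ b)]
    exact mul_le_mul_of_nonneg_left ih hρ0

theorem GLB_mono (f : ℕ → (E ≃ E)) (ρ : ℝ) (hρ0 : 0 ≤ ρ) (hρ : ρ < 1)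
    (hc : ∀ (n : ℕ) (x : E), ‖x‖ ≤ 1 → ‖f n x‖ ≤ ρ * ‖x‖) (a b : ℕ) (hab : a ≤ b) (y : E)
    (hy : ‖up f a y‖ ≤ 1) : ‖up f b y‖ ≤ 1 := by
  obtain ⟨k, rfl⟩ := Nat.exists_eq_add_of_le hab
  exact (GLB_contr f ρ hρ0 hρ hc a y hy k).trans (pow_le_one₀ hρ0 hρ.le)

theorem GLB_mem (f : ℕ → (E ≃ E)) (ρ : ℝ) (hρ0 : 0 ≤ ρ) (hρ : ρ < 1)
    (hc : ∀ (n : ℕ) (x : E), ‖x‖ ≤ 1 → ‖f n x‖ ≤ ρ * ‖x‖) (a : ℕ) (y : E)
    (hy : ‖up f a y‖ ≤ 1) : y ∈ basin f := by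
  show Tendsto (fun n => up f n y) atTop (𝓝 0)
  rw [← tendsto_add_atTop_iff_nat a]
  rw [tendsto_zero_iff_norm_tendsto_zero]
  refine squeeze_zero (fun k => norm_nonneg _) (fun k => ?_)
    (tendsto_pow_atTop_nhds_zero_of_lt_one hρ0 hρ)
  rw [add_comm]
  exact GLB_contr f ρ hρ0 hρ hc a y hy k

theorem GLB_ev (f : ℕ → (E ≃ E)) (y : E) (hy : y ∈ basin f) : ∃ N, ∀ m, N ≤ m → ‖up f m y‖ < 1 := by
  have h : Tendsto (fun n => up f n y) atTop (𝓝 0) := hy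
  rw [tendsto_zero_iff_norm_tendsto_zero] at h
  have := (h.eventually (gt_mem_nhds (show (0 : ℝ) < 1 by norm_num)))
  rw [eventually_atTop] at this
  exact this

theorem GLB_open (f : ℕ → (E ≃ E)) (hf : ∀ n, IsAut (f n)) (ρ : ℝ) (hρ0 : 0 ≤ ρ) (hρ : ρ < 1)
    (hc : ∀ (n : ℕ) (x : E), ‖x‖ ≤ 1 → ‖f n x‖ ≤ ρ * ‖x‖) : IsOpen (basin f) := by
  have : basin f = ⋃ m, {y | ‖up f m y‖ < 1} := by
    ext y
    constructor
    · intro hy
      obtain ⟨N, hN⟩ := GLB_ev f y hy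
      exact mem_iUnion.2 ⟨N, hN N le_rfl⟩
    · intro hy
      obtain ⟨m, hm⟩ := mem_iUnion.1 hy
      have hm' : ‖up f m y‖ < 1 := hm
      exact GLB_mem f ρ hρ0 hρ hc m y hm'.le
  rw [this]
  exact isOpen_iUnion (fun m => isOpen_lt ((isAut_up f hf m).1.continuous.norm) continuous_const)

theorem GLB_small (ε : ℝ) (hε : 0 < ε) : ∀ᶠ m : ℕ in atTop, ((1 : ℝ) / 2) ^ (m + 1) < ε := by
  have h : Tendsto (fun m : ℕ => ((1 : ℝ) / 2) ^ m) atTop (𝓝 0) :=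
    tendsto_pow_atTop_nhds_zero_of_lt_one (by norm_num) (by norm_num)
  have h2 := (tendsto_add_atTop_iff_nat 1).2 h
  exact h2.eventually (gt_mem_nhds hε)

theorem glue_limit (f : ℕ → (E ≃ E)) (hf : ∀ n, IsAut (f n)) (ρ : ℝ) (hρ : ρ < 1)
    (hc : ∀ (n : ℕ) (x : E), ‖x‖ ≤ 1 → ‖f n x‖ ≤ ρ * ‖x‖)
    (n : ℕ → ℕ) (G : ℕ → (E ≃ E)) (h0 : n 0 = 0) (hn : StrictMono n) (h1 : ∀ m, IsAut (G m))
    (h2 : ∀ (m : ℕ) (x : E), ‖x‖ ≤ m → ‖G m x‖ ≤ 1 / 2)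
    (h3 : ∀ (m i : ℕ), i ≤ m → ∀ x : E, ‖x‖ ≤ m →
        ‖up f (n i) ((up f (n (m + 1))).symm (G (m + 1) x)) -
          up f (n i) ((up f (n m)).symm (G m x))‖ ≤ (1 / 2) ^ (m + 2))
    (h4 : ∀ (m : ℕ) (y : E), ‖up f (n m) y‖ ≤ 1 →
        ‖(G (m + 1)).symm (up f (n (m + 1)) y) - (G m).symm (up f (n m) y)‖
          ≤ (1 / 2) ^ (m + 2)) :
    ∃ φ ψ : E → E, Differentiable ℂ φ ∧ DifferentiableOn ℂ ψ (basin f) ∧
      Set.range φ = basin f ∧ (∀ z, ψ (φ z) = z) ∧ (∀ w ∈ basin f, φ (ψ w) = w) := by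
  have hρ0 : 0 ≤ ρ := by
    have hx : ‖((1 : ℂ), (0 : ℂ))‖ = 1 := by simp [Prod.norm_def]
    have := hc 0 ((1 : ℂ), (0 : ℂ)) hx.le
    rw [hx, mul_one] at this
    exact (norm_nonneg _).trans this
  set P : ℕ → E → E := fun m x => (up f (n m)).symm (G m x) with hP
  set H : ℕ → E → E := fun m y => (G m).symm (up f (n m) y) with hH
  have hPd : ∀ m, Differentiable ℂ (P m) := fun m =>
    (isAut_up f hf (n m)).2.comp (h1 m).1
  have hHd : ∀ m, Differentiable ℂ (H m) := fun m =>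
    (h1 m).2.comp (isAut_up f hf (n m)).1
  have hHP : ∀ m x, H m (P m x) = x := by
    intro m x
    simp [hP, hH]
  have hPH : ∀ m y, P m (H m y) = y := by
    intro m y
    simp [hP, hH]
  -- Cauchy estimates
  have hceil : ∀ (x : E) (m : ℕ), ⌈‖x‖⌉₊ ≤ m → ‖x‖ ≤ (m : ℝ) := fun x m h => Nat.ceil_le.1 h
  have hPc : ∀ (x : E) (i : ℕ), ⌈‖x‖⌉₊ ≤ i → ∀ m, i ≤ m →
      ‖up f (n i) (P (m + 1) x) - up f (n i) (P m x)‖ ≤ (1 / 2) ^ (m + 2) := fun x i hi m hm =>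
    h3 m i hm x (hceil x m (hi.trans hm))
  have hPc0 : ∀ (x : E) (m : ℕ), ⌈‖x‖⌉₊ ≤ m → ‖P (m + 1) x - P m x‖ ≤ (1 / 2) ^ (m + 2) := by
    intro x m hm
    have := h3 m 0 (Nat.zero_le m) x (hceil x m hm)
    rw [h0] at this
    exact this
  have hHc : ∀ (y : E) (j : ℕ), ‖up f (n j) y‖ ≤ 1 → ∀ m, j ≤ m →
      ‖H (m + 1) y - H m y‖ ≤ (1 / 2) ^ (m + 2) := fun y j hj m hm =>
    h4 m y (GLB_mono f ρ hρ0 hρ hc (n j) (n m) (hn.monotone hm) y hj)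
  have hex : ∀ y ∈ basin f, ∃ j, ‖up f (n j) y‖ < 1 := by
    intro y hy
    obtain ⟨N, hN⟩ := GLB_ev f y hy
    exact ⟨N, hN (n N) (hn.id_le N)⟩
  -- limits
  have hL : ∀ x : E, ∃ l : E, Tendsto (fun m => P m x) atTop (𝓝 l) := fun x =>
    GLB_lim _ ⌈‖x‖⌉₊ (hPc0 x)
  choose Q hQ using hL
  have hM : ∀ y : E, y ∈ basin f → ∃ l : E, Tendsto (fun m => H m y) atTop (𝓝 l) := by
    intro y hy
    obtain ⟨j, hj⟩ := hex y hy
    exact GLB_lim _ j (hHc y j hj.le)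
  choose! K hK using hM
  have hopen : IsOpen (basin f) := GLB_open f hf ρ hρ0 hρ hc
  have hPu : TendstoLocallyUniformlyOn P Q atTop univ := by
    rw [Metric.tendstoLocallyUniformlyOn_iff]
    intro ε hε x _
    refine ⟨ball x 1, mem_nhdsWithin_of_mem_nhds (ball_mem_nhds x one_pos), ?_⟩
    filter_upwards [GLB_small ε hε, eventually_ge_atTop ⌈‖x‖ + 1⌉₊] with m hm1 hm2 y hy
    rw [dist_comm, dist_eq_norm]
    have hy' : ‖y‖ ≤ ‖x‖ + 1 := by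
      rw [mem_ball, dist_eq_norm] at hy
      have e : y = (y - x) + x := by abel
      calc ‖y‖ = ‖(y - x) + x‖ := by rw [← e]
        _ ≤ ‖y - x‖ + ‖x‖ := norm_add_le _ _
        _ ≤ ‖x‖ + 1 := by linarith
    have hc1 : ⌈‖y‖⌉₊ ≤ m := (Nat.ceil_le_ceil hy').trans hm2
    exact lt_of_le_of_lt (GLB_bound _ ⌈‖y‖⌉₊ (hPc0 y) _ (hQ y) m hc1) hm1
  have hHu : TendstoLocallyUniformlyOn H K atTop (basin f) := by
    rw [Metric.tendstoLocallyUniformlyOn_iff]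
    intro ε hε y hy
    obtain ⟨j, hj⟩ := hex y hy
    have hO : IsOpen {z : E | ‖up f (n j) z‖ < 1} :=
      isOpen_lt ((isAut_up f hf (n j)).1.continuous.norm) continuous_const
    refine ⟨{z : E | ‖up f (n j) z‖ < 1}, mem_nhdsWithin_of_mem_nhds (hO.mem_nhds hj), ?_⟩
    filter_upwards [GLB_small ε hε, eventually_ge_atTop j] with m hm1 hm2 z hz
    rw [dist_comm, dist_eq_norm]
    have hz' : ‖up f (n j) z‖ < 1 := hz
    exact lt_of_le_of_lt (GLB_bound _ j (hHc z j hz'.le) _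
      (hK z (GLB_mem f ρ hρ0 hρ hc (n j) z hz'.le)) m hm2) hm1
  have hQd : DifferentiableOn ℂ Q univ := hol_limit univ isOpen_univ P Q hPd hPu
  have hKd : DifferentiableOn ℂ K (basin f) := hol_limit (basin f) hopen H K hHd hHu
  have hQm : ∀ x, Q x ∈ basin f := by
    intro x
    set i := ⌈‖x‖⌉₊ with hi
    have ht : Tendsto (fun m => up f (n i) (P m x)) atTop (𝓝 (up f (n i) (Q x))) :=
      ((isAut_up f hf (n i)).1.continuous.tendsto _).comp (hQ x)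
    have hb := GLB_bound _ i (hPc x i le_rfl) _ ht i le_rfl
    have e1 : up f (n i) (P i x) = G i x := by simp [hP]
    rw [e1] at hb
    have hg : ‖G i x‖ ≤ 1 / 2 := h2 i x (hceil x i le_rfl)
    have hp : ((1 : ℝ) / 2) ^ (i + 1) ≤ 1 / 2 := by
      rw [pow_succ]
      have : ((1 : ℝ) / 2) ^ i ≤ 1 := pow_le_one₀ (by norm_num) (by norm_num)
      linarith
    have hfin : ‖up f (n i) (Q x)‖ ≤ 1 := by
      have e2 : up f (n i) (Q x) = G i x - (G i x - up f (n i) (Q x)) := by abel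
      rw [e2]
      exact (norm_sub_le _ _).trans (by linarith)
    exact GLB_mem f ρ hρ0 hρ hc (n i) (Q x) hfin
  have hKQ : ∀ x, K (Q x) = x := by
    intro x
    have ht : Tendsto (fun m => H m (P m x)) atTop (𝓝 (K (Q x))) := by
      refine hHu.tendsto_comp (hKd.continuousOn (Q x) (hQm x)) (hQm x) ?_
      rw [hopen.nhdsWithin_eq (hQm x)]
      exact hQ x
    have ht2 : Tendsto (fun m => H m (P m x)) atTop (𝓝 x) := by
      simp only [hHP]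
      exact tendsto_const_nhds
    exact tendsto_nhds_unique ht ht2
  have hQK : ∀ y ∈ basin f, Q (K y) = y := by
    intro y hy
    have ht : Tendsto (fun m => P m (H m y)) atTop (𝓝 (Q (K y))) := by
      refine hPu.tendsto_comp (hQd.continuousOn (K y) (mem_univ _)) (mem_univ _) ?_
      rw [nhdsWithin_univ]
      exact hK y hy
    have ht2 : Tendsto (fun m => P m (H m y)) atTop (𝓝 y) := by
      simp only [hPH]
      exact tendsto_const_nhds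
    exact tendsto_nhds_unique ht ht2
  refine ⟨Q, K, differentiableOn_univ.1 hQd, hKd, ?_, hKQ, hQK⟩
  ext y
  constructor
  · rintro ⟨x, rfl⟩
    exact hQm x
  · intro hy
    exact ⟨K y, hQK y hy⟩

end Pool.Agent.Lib.MP_bdb4fe_an
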