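import Pool.Agent.Lib.MP_bdb4fe_an.Defs

/-!
Module JAC (40 min). Jacobians.

PROOF. `lin a b c d` applied to `(u, v)` is `(a u + b v, c u + d v)`. Chain rule
(`HasFDerivAt.comp`) with `(lin n).comp (lin m) = lin (n m)` and `det (n m) = det n * det m`
(`ring`). The derivative of `qmap A B p q` at `x` is `lin A (2 p x.2) (2 q x.1) B`, with determinant
`A B - 4 p q x.1 x.2 = A B` because `p q = 0`. `IsAut` of `qeq`: polynomial maps are differentiable
(`fun_prop`), the inverse too. `up` by induction.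
-/

set_option autoImplicit false

namespace Pool.Agent.Lib.MP_bdb4fe_an

open Filter Topology Metric Set

theorem jac_lin_apply (a b c d : ℂ) (v : E) :
    lin a b c d v = (a * v.1 + b * v.2, c * v.1 + d * v.2) := by
  simp [lin]

theorem HasJ.comp {f g : E → E} {δ δ' : ℝ} (hf : HasJ f δ') (hg : HasJ g δ) :
    HasJ (fun x => f (g x)) (δ' * δ) := by
  intro x
  obtain ⟨a, b, c, d, h1, h2⟩ := hg x
  obtain ⟨a', b', c', d', h3, h4⟩ := hf (g x)
  refine ⟨a' * a + b' * c, a' * b + b' * d, c' * a + d' * c, c' * b + d' * d, ?_, ?_⟩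
  · have h5 := h3.comp x h1
    have h6 : (lin a' b' c' d').comp (lin a b c d) =
        lin (a' * a + b' * c) (a' * b + b' * d) (c' * a + d' * c) (c' * b + d' * d) := by
      apply ContinuousLinearMap.ext
      intro v
      rw [ContinuousLinearMap.comp_apply, jac_lin_apply, jac_lin_apply, jac_lin_apply]
      ext
      · simp only; ring
      · simp only; ring
    rw [← h6]
    exact h5
  · rw [← h4, ← h2, ← norm_mul]
    congr 1
    ring

theorem jac_qmap (A B p q : ℂ) (x : E) :
    HasFDerivAt (qmap A B p q) (lin A (2 * p * x.2) (2 * q * x.1) B) x := by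
  have h1 : HasFDerivAt (fun x : E => x.1) (ContinuousLinearMap.fst ℂ ℂ ℂ) x := hasFDerivAt_fst
  have h2 : HasFDerivAt (fun x : E => x.2) (ContinuousLinearMap.snd ℂ ℂ ℂ) x := hasFDerivAt_snd
  have h3 := (h1.const_mul A).add ((h2.pow 2).const_mul p)
  have h4 := (h2.const_mul B).add ((h1.pow 2).const_mul q)
  have h5 := h3.prodMk h4
  refine h5.congr_fderiv ?_
  apply ContinuousLinearMap.ext
  intro v
  rw [jac_lin_apply]
  ext
  · simp; ring
  · simp; ring

theorem hasJ_qeq (A B p q : ℂ) (hA : A ≠ 0) (hB : B ≠ 0) (h : p = 0 ∨ q = 0) :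
    HasJ (qeq A B p q hA hB h) (‖A‖ * ‖B‖) := by
  intro x
  refine ⟨_, _, _, _, jac_qmap A B p q x, ?_⟩
  rw [← norm_mul]
  congr 1
  rcases h with h | h <;> rw [h] <;> ring

theorem isAut_qeq (A B p q : ℂ) (hA : A ≠ 0) (hB : B ≠ 0) (h : p = 0 ∨ q = 0) :
    IsAut (qeq A B p q hA hB h) := by
  constructor
  · exact fun x => (jac_qmap A B p q x).differentiableAt
  · show Differentiable ℂ (qinv A B p q)
    unfold qinv
    fun_prop

theorem hasJ_up (f : ℕ → (E ≃ E)) (δ : ℝ) (hf : ∀ n, HasJ (f n) δ) (n : ℕ) :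
    HasJ (up f n) (δ ^ n) := by
  induction n with
  | zero =>
    intro x
    refine ⟨1, 0, 0, 1, ?_, by simp⟩
    have : lin 1 0 0 1 = ContinuousLinearMap.id ℂ E := by
      apply ContinuousLinearMap.ext
      intro v
      rw [jac_lin_apply]
      simp
    rw [this]
    exact hasFDerivAt_id x
  | succ n ih =>
    have := (hf n).comp ih
    rw [pow_succ']
    exact this

end Pool.Agent.Lib.MP_bdb4fe_an
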