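import Pool.Agent.Lib.MP_bdb4fe_an.Defs

/-!
Module RUN. Elementary estimates for runs.

`run_bound`: by induction `x n ≤ (3 - α^n) α^n` and the same for `y n` (`n = 0`: `2 ≤ 2`; step:
`x (n+1) ≤ α (3 - α^n) α^n + c (3 α^n)²` and
`α (3-α^n) α^n + 9 c α^(2n) ≤ (3 - α^(n+1)) α^(n+1)` iff `9c ≤ α - α²`), using `β ≤ α² ≤ α` and
`9c ≤ β(1-α) ≤ α(1-α)`; positivity by induction.

`run_lineage`: induction on `t` from `s`. Put `u a = α^(cnt F a t) * β^(t - a - cnt F a t)` (the linear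
factor of the first coordinate from `a` to `t`). Claim: `x t ≤ 3 (t - s + 1) * u s * α^s`, or for some
`a` with `s < a ≤ t`, `U (a-1)`: `x t ≤ 3 (t-s+1) * u a * α^(2a)`. For `t = s`: `x s ≤ 3 α^s`.
Step `t → t+1`: if not `U t`, `x (t+1) = (α or β) x t` and every `u a` gets the same factor. If `U t`:
`x (t+1) ≤ (α or β) x t + 9 c α^(2t)`, and `9 c α^(2t) ≤ 3 α^(2(t+1))` because
`9c ≤ β ≤ α² ≤ 3 α²`; compare the old term (with the new factor) with `α^(2(t+1))`
(`u (t+1) = 1` at time `t+1`) and keep the larger one.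
NOTE the exponents: `cnt F a t ≤ t - a`, `cnt F a (t+1) = cnt F a t + (if F t then 1 else 0)` for
`a ≤ t`.

`run_after`: by induction on `t ≥ s`:
`x t ≤ α^(t-s) x s + α^t (α^s - α^t)`; step: `x (t+1) ≤ α x t + 9 c α^(2t)` and
`9 c α^(2t) ≤ α^(t+1) (α^t - α^(t+1)) = α^(2t+1) (1 - α)` since `9c ≤ β(1-α) ≤ α(1-α)`.
-/

set_option autoImplicit false

namespace Pool.Agent.Lib.MP_bdb4fe_an

open Filter Topology Metric Set

theorem run_c {α β c : ℝ} (hk : Const α β c) : 9 * c ≤ α * (1 - α) ∧ 9 * c ≤ β ∧ β ≤ α := by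
  have h1 := hk.hα0
  have h2 := hk.hα1
  have h3 := hk.hβ0
  have h4 := hk.hβα
  have h5 := hk.hc
  have h6 : β ≤ α := by nlinarith
  refine ⟨?_, ?_, h6⟩
  · nlinarith
  · nlinarith

theorem run_step {α β c γ A u v : ℝ} (hk : Const α β c) (hγ0 : 0 < γ) (hγ : γ ≤ α) (hA : 0 < A)
    (hu0 : 0 < u) (hu : u ≤ (3 - A) * A) (hv0 : 0 < v) (hv : v ≤ (3 - A) * A)
    (b : Bool) : 0 < γ * u + (if b then c * v ^ 2 else 0) ∧
      γ * u + (if b then c * v ^ 2 else 0) ≤ (3 - α * A) * (α * A) := by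
  obtain ⟨h1, h2, h3⟩ := run_c hk
  have hc0 := hk.hc0
  have hα0 := hk.hα0
  have h4 : (if b then c * v ^ 2 else 0) ≤ c * v ^ 2 := by
    cases b
    · simp only [Bool.false_eq_true, if_false]; positivity
    · simp
  have h5 : 0 ≤ (if b then c * v ^ 2 else 0) := by
    cases b
    · simp
    · simp only [if_true]; positivity
  have h6 : v ^ 2 ≤ 9 * A ^ 2 := by nlinarith
  have h7 : c * v ^ 2 ≤ c * (9 * A ^ 2) := mul_le_mul_of_nonneg_left h6 hc0
  have h8 : 9 * c * A ^ 2 ≤ α * (1 - α) * A ^ 2 := mul_le_mul_of_nonneg_right h1 (by positivity)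
  have h9 : γ * u ≤ α * u := mul_le_mul_of_nonneg_right hγ hu0.le
  have h10 : α * u ≤ α * ((3 - A) * A) := mul_le_mul_of_nonneg_left hu hα0.le
  refine ⟨?_, ?_⟩
  · have : 0 < γ * u := mul_pos hγ0 hu0
    linarith
  · nlinarith

theorem run_strong {α β c : ℝ} (hk : Const α β c) {x y : ℕ → ℝ} {F U V : ℕ → Bool}
    (h : Run α β c x y F U V) (n : ℕ) :
    (0 < x n ∧ x n ≤ (3 - α ^ n) * α ^ n) ∧ (0 < y n ∧ y n ≤ (3 - α ^ n) * α ^ n) := by
  induction n with
  | zero =>
    rw [h.x0, h.y0]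
    norm_num
  | succ n ih =>
    obtain ⟨⟨h1, h2⟩, h3, h4⟩ := ih
    obtain ⟨-, -, h5⟩ := run_c hk
    have hA : 0 < α ^ n := pow_pos hk.hα0 n
    have e : α ^ (n + 1) = α * α ^ n := by ring
    rw [h.hx n, h.hy n, e]
    refine ⟨?_, ?_⟩
    · refine run_step hk ?_ ?_ hA h1 h2 h3 h4 _
      · split_ifs
        · exact hk.hα0
        · exact hk.hβ0
      · split_ifs
        · exact le_rfl
        · exact h5
    · refine run_step hk ?_ ?_ hA h3 h4 h1 h2 _
      · split_ifs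
        · exact hk.hβ0
        · exact hk.hα0
      · split_ifs
        · exact h5
        · exact le_rfl

theorem run_bound {α β c : ℝ} (hk : Const α β c) {x y : ℕ → ℝ} {F U V : ℕ → Bool}
    (h : Run α β c x y F U V) (n : ℕ) :
    (0 < x n ∧ x n ≤ 3 * α ^ n) ∧ (0 < y n ∧ y n ≤ 3 * α ^ n) := by
  obtain ⟨⟨h1, h2⟩, h3, h4⟩ := run_strong hk h n
  have hA : 0 < α ^ n := pow_pos hk.hα0 n
  exact ⟨⟨h1, by nlinarith⟩, h3, by nlinarith⟩

theorem cnt_le (F : ℕ → Bool) (s t : ℕ) : cnt F s t ≤ t - s := by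
  unfold cnt
  refine (Finset.card_filter_le _ _).trans ?_
  rw [Nat.card_Ico]

theorem cnt_mono (F : ℕ → Bool) (s a t : ℕ) (h : s ≤ a) : cnt F a t ≤ cnt F s t := by
  unfold cnt
  exact Finset.card_le_card (Finset.filter_subset_filter _ (Finset.Ico_subset_Ico_left h))

theorem cnt_not (F : ℕ → Bool) (s t : ℕ) : cnt (fun n => !F n) s t + cnt F s t = t - s := by
  unfold cnt
  have h1 : (Finset.Ico s t).filter (fun n => (!F n) = true) =
      (Finset.Ico s t).filter (fun n => ¬ F n = true) := by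
    refine Finset.filter_congr fun n _ => ?_
    cases F n <;> simp
  rw [h1, add_comm, Finset.card_filter_add_card_filter_not, Nat.card_Ico]

theorem run_cnt_self (F : ℕ → Bool) (a : ℕ) : cnt F a a = 0 := by
  simp [cnt]

theorem run_cnt_succ (F : ℕ → Bool) {a t : ℕ} (h : a ≤ t) :
    cnt F a (t + 1) = cnt F a t + (if F t then 1 else 0) := by
  unfold cnt
  rw [← Finset.insert_Ico_right_eq_Ico_add_one h, Finset.filter_insert]
  cases hF : F t
  · simp
  · simp

/-- the linear factor from `a` to `t` -/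
noncomputable def run_u (α β : ℝ) (F : ℕ → Bool) (a t : ℕ) : ℝ :=
  α ^ (cnt F a t) * β ^ (t - a - cnt F a t)

theorem run_u_self (α β : ℝ) (F : ℕ → Bool) (a : ℕ) : run_u α β F a a = 1 := by
  simp [run_u, run_cnt_self]

theorem run_u_succ (α β : ℝ) (F : ℕ → Bool) {a t : ℕ} (h : a ≤ t) :
    run_u α β F a (t + 1) = (if F t then α else β) * run_u α β F a t := by
  unfold run_u
  rw [run_cnt_succ F h]
  have h1 := cnt_le F a t
  cases hF : F t
  · simp only [Bool.false_eq_true, if_false, add_zero]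
    rw [show t + 1 - a - cnt F a t = (t - a - cnt F a t) + 1 by omega]
    ring
  · simp only [if_true]
    rw [show t + 1 - a - (cnt F a t + 1) = t - a - cnt F a t by omega]
    ring

theorem run_u_pos {α β : ℝ} (hα : 0 < α) (hβ : 0 < β) (F : ℕ → Bool) (a t : ℕ) :
    0 < run_u α β F a t := by
  unfold run_u
  positivity

theorem run_lin {α β c : ℝ} (hk : Const α β c) {x y : ℕ → ℝ} {F U V : ℕ → Bool}
    (h : Run α β c x y F U V) (s t : ℕ) (hst : s ≤ t) :
    ∃ a e : ℕ, a ≤ t ∧ ((a = s ∧ e = s) ∨ (s < a ∧ U (a - 1) = true ∧ e = 2 * a)) ∧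
      x t ≤ 3 * ((t : ℝ) - s + 1) * run_u α β F a t * α ^ e := by
  obtain ⟨-, h9β, hβα⟩ := run_c hk
  have hα0 := hk.hα0
  have hβ0 := hk.hβ0
  induction t, hst using Nat.le_induction with
  | base =>
    refine ⟨s, s, le_rfl, Or.inl ⟨rfl, rfl⟩, ?_⟩
    rw [run_u_self]
    have := (run_bound hk h s).1.2
    simpa using this
  | succ t hst ih =>
    obtain ⟨a, e, hat, hae, hx⟩ := ih
    have hγ0 : 0 < (if F t then α else β) := by
      split_ifs
      · exact hα0
      · exact hβ0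
    have hstR : (s : ℝ) ≤ t := by exact_mod_cast hst
    have hV : 0 < run_u α β F a (t + 1) * α ^ e :=
      mul_pos (run_u_pos hα0 hβ0 F a (t + 1)) (pow_pos hα0 e)
    have h1 : (if F t then α else β) * x t ≤
        3 * ((t : ℝ) - s + 1) * (run_u α β F a (t + 1) * α ^ e) := by
      rw [run_u_succ α β F hat]
      have := mul_le_mul_of_nonneg_left hx hγ0.le
      linarith [this, show (if F t then α else β) * (3 * ((t : ℝ) - s + 1) * run_u α β F a t *
        α ^ e) = 3 * ((t : ℝ) - s + 1) * ((if F t then α else β) * run_u α β F a t * α ^ e) by ring]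
    have hcast : ((t + 1 : ℕ) : ℝ) - s + 1 = ((t : ℝ) - s + 1) + 1 := by push_cast; ring
    have h2 : (if U t then c * y t ^ 2 else 0) ≤ (if U t then 3 * α ^ (2 * (t + 1)) else 0) := by
      cases U t
      · simp
      · simp only [if_true]
        obtain ⟨h3, h4⟩ := (run_bound hk h t).2
        have h5 : y t ^ 2 ≤ (3 * α ^ t) ^ 2 := pow_le_pow_left₀ h3.le h4 2
        have h6 : c * y t ^ 2 ≤ c * (3 * α ^ t) ^ 2 := mul_le_mul_of_nonneg_left h5 hk.hc0
        have h7 : c * (3 * α ^ t) ^ 2 = 9 * c * (α ^ t) ^ 2 := by ring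
        have h8 : 9 * c * (α ^ t) ^ 2 ≤ α ^ 2 * (α ^ t) ^ 2 :=
          mul_le_mul_of_nonneg_right (h9β.trans hk.hβα) (by positivity)
        have h9 : α ^ (2 * (t + 1)) = α ^ 2 * (α ^ t) ^ 2 := by ring
        have h10 : 0 < α ^ 2 * (α ^ t) ^ 2 := by positivity
        rw [h9]
        linarith
    rw [h.hx t, hcast]
    by_cases hU : U t = true
    · rw [hU] at h2
      simp only [if_true] at h2
      rw [hU]
      simp only [if_true]
      have h3 : (0 : ℝ) ≤ (t : ℝ) - s + 1 := by linarith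
      rcases le_total (α ^ (2 * (t + 1))) (run_u α β F a (t + 1) * α ^ e) with h4 | h4
      · refine ⟨a, e, by omega, hae, ?_⟩
        calc (if F t then α else β) * x t + c * y t ^ 2
            ≤ 3 * ((t : ℝ) - s + 1) * (run_u α β F a (t + 1) * α ^ e) +
              3 * (run_u α β F a (t + 1) * α ^ e) := by linarith
          _ = 3 * (((t : ℝ) - s + 1) + 1) * run_u α β F a (t + 1) * α ^ e := by ring
      · refine ⟨t + 1, 2 * (t + 1), le_rfl, Or.inr ⟨by omega, by simpa using hU, rfl⟩, ?_⟩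
        rw [run_u_self]
        have h5 : 3 * ((t : ℝ) - s + 1) * (run_u α β F a (t + 1) * α ^ e) ≤
            3 * ((t : ℝ) - s + 1) * α ^ (2 * (t + 1)) :=
          mul_le_mul_of_nonneg_left h4 (by linarith)
        calc (if F t then α else β) * x t + c * y t ^ 2
            ≤ 3 * ((t : ℝ) - s + 1) * α ^ (2 * (t + 1)) + 3 * α ^ (2 * (t + 1)) := by linarith
          _ = 3 * (((t : ℝ) - s + 1) + 1) * 1 * α ^ (2 * (t + 1)) := by ring
    · have hU' : U t = false := by simpa using hU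
      rw [hU']
      simp only [Bool.false_eq_true, if_false, add_zero]
      refine ⟨a, e, by omega, hae, ?_⟩
      calc (if F t then α else β) * x t
          ≤ 3 * ((t : ℝ) - s + 1) * (run_u α β F a (t + 1) * α ^ e) := h1
        _ ≤ 3 * (((t : ℝ) - s + 1) + 1) * (run_u α β F a (t + 1) * α ^ e) := by nlinarith
        _ = 3 * (((t : ℝ) - s + 1) + 1) * run_u α β F a (t + 1) * α ^ e := by ring

theorem run_lineage {α β c : ℝ} (hk : Const α β c) {x y : ℕ → ℝ} {F U V : ℕ → Bool}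
    (h : Run α β c x y F U V) (s t : ℕ) (hst : s ≤ t) :
    x t ≤ 3 * ((t : ℝ) - s + 1) * (α ^ (cnt F s t) * β ^ (t - s - cnt F s t)) * α ^ s ∨
    ∃ a, s < a ∧ a ≤ t ∧ U (a - 1) = true ∧
      x t ≤ 3 * ((t : ℝ) - s + 1) * (α ^ (cnt F a t) * β ^ (t - a - cnt F a t)) * α ^ (2 * a) := by
  obtain ⟨a, e, hat, h1, hx⟩ := run_lin hk h s t hst
  rcases h1 with ⟨rfl, rfl⟩ | ⟨h1, h2, rfl⟩
  · exact Or.inl hx
  · exact Or.inr ⟨a, h1, hat, h2, hx⟩

theorem run_after {α β c : ℝ} (hk : Const α β c) {x y : ℕ → ℝ} {F U V : ℕ → Bool}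
    (h : Run α β c x y F U V) (s t : ℕ) (hst : s ≤ t) :
    x t ≤ α ^ (t - s) * x s + α ^ (t + s) := by
  obtain ⟨h9α, -, hβα⟩ := run_c hk
  have hα0 := hk.hα0
  have key : x t ≤ α ^ (t - s) * x s + α ^ t * (α ^ s - α ^ t) := by
    induction t, hst using Nat.le_induction with
    | base => simp
    | succ t hst ih =>
      obtain ⟨⟨hx0, -⟩, h3, h4⟩ := run_bound hk h t
      have h5 : y t ^ 2 ≤ (3 * α ^ t) ^ 2 := pow_le_pow_left₀ h3.le h4 2
      have h6 : c * y t ^ 2 ≤ c * (3 * α ^ t) ^ 2 := mul_le_mul_of_nonneg_left h5 hk.hc0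
      have h7 : c * (3 * α ^ t) ^ 2 = 9 * c * (α ^ t) ^ 2 := by ring
      have h8 : 9 * c * (α ^ t) ^ 2 ≤ α * (1 - α) * (α ^ t) ^ 2 :=
        mul_le_mul_of_nonneg_right h9α (by positivity)
      have h9 : (if U t then c * y t ^ 2 else 0) ≤ α * (1 - α) * (α ^ t) ^ 2 := by
        cases U t
        · simp only [Bool.false_eq_true, if_false]
          have := hk.hc0
          have : 0 ≤ 9 * c * (α ^ t) ^ 2 := by positivity
          linarith
        · simp only [if_true]
          linarith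
      have h10 : (if F t then α else β) * x t ≤ α * x t := by
        refine mul_le_mul_of_nonneg_right ?_ hx0.le
        split_ifs
        · exact le_rfl
        · exact hβα
      have h11 : α * x t ≤ α * (α ^ (t - s) * x s + α ^ t * (α ^ s - α ^ t)) :=
        mul_le_mul_of_nonneg_left ih hα0.le
      rw [h.hx t, show t + 1 - s = (t - s) + 1 by omega]
      have e1 : α ^ ((t - s) + 1) * x s + α ^ (t + 1) * (α ^ s - α ^ (t + 1)) =
          α * (α ^ (t - s) * x s + α ^ t * (α ^ s - α ^ t)) + α * (1 - α) * (α ^ t) ^ 2 := by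
        ring
      rw [e1]
      linarith
  have h12 : α ^ t * (α ^ s - α ^ t) ≤ α ^ (t + s) := by
    have : 0 ≤ α ^ t * α ^ t := by positivity
    have e : α ^ (t + s) = α ^ t * α ^ s := pow_add α t s
    rw [e]
    nlinarith
  linarith

end Pool.Agent.Lib.MP_bdb4fe_an
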